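import Mathlib
import Pool.Agent.N944.MV.B

set_option autoImplicit false
set_option linter.unusedSectionVars false
set_option linter.unusedVariables false

/-! # The normal law over the residue classes in sequential models: the martingale part -/

open MeasureTheory Filter Set
open scoped ENNReal Topology

namespace Pool.Agent.N944.NL

open Pool.Agent.R528.RM Pool.Agent.N893.SM Pool.Agent.N909.TF Pool.Agent.N944.MV

variable {Ω : Type} {m0 : MeasurableSpace Ω} {μ : Measure Ω} [IsProbabilityMeasure μ]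
  {ℱ : Filtration ℕ m0} {A : ℕ → Set Ω}

/-- `exp (i y)` -/
noncomputable def ec (y : ℝ) : ℂ := Complex.exp ((y : ℂ) * Complex.I)

lemma ec_cont : Continuous ec := by
  unfold ec
  fun_prop

lemma ec_norm (y : ℝ) : ‖ec y‖ = 1 := Complex.norm_exp_ofReal_mul_I y

lemma ec_add (y z : ℝ) : ec (y + z) = ec y * ec z := by
  unfold ec
  rw [← Complex.exp_add]
  congr 1
  push_cast
  ring

lemma ec_zero : ec 0 = 1 := by simp [ec]

lemma ec_sub_one (y : ℝ) : ‖ec y - 1‖ ≤ |y| := by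
  have := Real.norm_exp_I_mul_ofReal_sub_one_le (x := y)
  unfold ec
  rwa [mul_comm Complex.I, Real.norm_eq_abs] at this

/-- the number of the members of a class -/
def Nc (x q a : ℕ) : ℕ := ((Finset.Icc 1 x).filter (fun n => n ≡ a [MOD q])).card

/-- the weight of the member `k + 1` -/
noncomputable def Wc (μ : Measure Ω) (ℱ : Filtration ℕ m0) (A : ℕ → Set Ω) (θ b : ℝ) (x q k : ℕ) (ω : Ω) : ℂ :=
  ((b ^ (Nc x q (k + 1) - Nc (k + 1) q (k + 1)) : ℝ) : ℂ) *
    (ec (θ * dv μ ℱ A k q (k + 1) ω + -(θ * Real.log ((k + 1 : ℕ) : ℝ) * dens μ ℱ A k ω)) *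
      (ec (θ * Real.log ((k + 1 : ℕ) : ℝ)) - 1))

/-- real or imaginary part -/
def pt (c : Bool) (z : ℂ) : ℝ := if c then z.re else z.im

lemma pt_cont (c : Bool) : Continuous (pt c) := by
  unfold pt
  cases c
  · simpa using Complex.continuous_im
  · simpa using Complex.continuous_re

lemma pt_le (c : Bool) (z : ℂ) : |pt c z| ≤ ‖z‖ := by
  unfold pt
  cases c
  · simpa using Complex.abs_im_le_norm z
  · simpa using Complex.abs_re_le_norm z

/-- the truncated real weight -/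
noncomputable def wr (μ : Measure Ω) (ℱ : Filtration ℕ m0) (A : ℕ → Set Ω) (s : ℝ) (c : Bool) (R θ b : ℝ)
    (x q k : ℕ) (ω : Ω) : ℝ := min 1 (max 0 (s * (pt c (Wc μ ℱ A θ b x q k ω) / R)))

lemma wr_meas (hA : ∀ n, MeasurableSet[ℱ n] (A n)) (s : ℝ) (c : Bool) (R θ b : ℝ) (x q k : ℕ) :
    StronglyMeasurable[ℱ k] (wr μ ℱ A s c R θ b x q k) := by
  have h1 : StronglyMeasurable[ℱ k] (fun ω => θ * dv μ ℱ A k q (k + 1) ω +
      -(θ * Real.log ((k + 1 : ℕ) : ℝ) * dens μ ℱ A k ω)) :=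
    ((dv_meas (μ := μ) (ℱ := ℱ) hA k q (k + 1)).const_mul θ).add
      ((dens_meas k).const_mul (θ * Real.log ((k + 1 : ℕ) : ℝ))).neg
  have hc : Continuous (fun y : ℝ => min 1 (max 0 (s * (pt c (((b ^ (Nc x q (k + 1) - Nc (k + 1) q (k + 1)) : ℝ) : ℂ) *
    (ec y * (ec (θ * Real.log ((k + 1 : ℕ) : ℝ)) - 1))) / R)))) := by
    have h2 := pt_cont c
    have h3 := ec_cont
    fun_prop
  exact hc.comp_stronglyMeasurable h1

lemma wr_mem (s : ℝ) (c : Bool) (R θ b : ℝ) (x q k : ℕ) (ω : Ω) :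
    0 ≤ wr μ ℱ A s c R θ b x q k ω ∧ wr μ ℱ A s c R θ b x q k ω ≤ 1 :=
  ⟨le_min zero_le_one (le_max_left _ _), min_le_left _ _⟩

/-- the grid -/
noncomputable def gt (x i : ℕ) : ℝ := (i : ℝ) / (x : ℝ) ^ 2 - (x : ℝ) ^ 2

/-- the standard deviation -/
noncomputable def sg (x q : ℕ) : ℝ := √((x : ℝ) * Real.log x / q)

/-- the frequency -/
noncomputable def th (x q i : ℕ) : ℝ := gt x i / sg x q

/-- the factor -/
noncomputable def bb' (x q i : ℕ) : ℝ := 1 - th x q i ^ 2 * Real.log x / 2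

/-- the exceptional events -/
theorem errN (hA : ∀ n, MeasurableSet[ℱ n] (A n)) :
    ∀ᵐ ω ∂μ, ∀ᶠ x : ℕ in atTop, ∀ q i : ℕ, 1 ≤ q → q ≤ x → i ≤ 2 * x ^ 4 → ∀ (s : ℝ) (c : Bool), s = 1 ∨ s = -1 →
      Ex μ ℱ A (tt x) (wr μ ℱ A s c (|th x q i| * Real.log x) (th x q i) (bb' x q i) x q) x ω < 10 * Real.log x ∧
      Ex μ ℱ A (-tt x) (wr μ ℱ A s c (|th x q i| * Real.log x) (th x q i) (bb' x q i) x q) x ω < 10 * Real.log x := by
  set E : ℝ → ℝ → Bool → ℕ → ℕ → ℕ → Set Ω := fun s t c x q i =>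
    {ω | 10 * Real.log x ≤ Ex μ ℱ A t (wr μ ℱ A s c (|th x q i| * Real.log x) (th x q i) (bb' x q i) x q) x ω} with hE
  set G : ℕ → ℕ → ℕ → Set Ω := fun x q i =>
    ((E 1 (tt x) true x q i ∪ E 1 (-tt x) true x q i) ∪ (E (-1) (tt x) true x q i ∪ E (-1) (-tt x) true x q i)) ∪
    ((E 1 (tt x) false x q i ∪ E 1 (-tt x) false x q i) ∪ (E (-1) (tt x) false x q i ∪ E (-1) (-tt x) false x q i)) with hG
  set Bad : ℕ → Set Ω := fun x => ⋃ q ∈ Finset.Icc 1 x, ⋃ i ∈ Finset.range (2 * x ^ 4 + 1), G x q i with hBad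
  have hsum : Summable (fun n : ℕ => 24 * ((n : ℝ) ^ 2)⁻¹) := (Real.summable_nat_pow_inv.2 (by norm_num)).mul_left 24
  have hb : ∀ᶠ n in atTop, μ.real (Bad n) ≤ 24 * ((n : ℝ) ^ 2)⁻¹ := by
    filter_upwards [eventually_ge_atTop 1] with x hx
    have hx0 : (1 : ℝ) ≤ x := by exact_mod_cast hx
    have hxp : (0 : ℝ) < x := by linarith
    have hexp : Real.exp (-(10 * Real.log x)) = ((x : ℝ) ^ 10)⁻¹ := by
      rw [exp_log_rpow hx]
      congr 1
      exact_mod_cast Real.rpow_natCast (x : ℝ) 10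
    have h0 : ∀ (s t : ℝ) (c : Bool) (q i : ℕ), μ.real (E s t c x q i) ≤ ((x : ℝ) ^ 10)⁻¹ := by
      intro s t c q i
      have := Ex_tail (μ := μ) hA t (wr μ ℱ A s c (|th x q i| * Real.log x) (th x q i) (bb' x q i) x q)
        (fun k => wr_meas hA s c _ _ _ x q k) (fun k ω => wr_mem s c _ _ _ x q k ω) x (10 * Real.log x)
      rwa [hexp] at this
    have h1 : ∀ q i : ℕ, μ.real (G x q i) ≤ 8 * ((x : ℝ) ^ 10)⁻¹ := by
      intro q i
      have u0 := measureReal_union_le (μ := μ) ((E 1 (tt x) true x q i ∪ E 1 (-tt x) true x q i) ∪ (E (-1) (tt x) true x q i ∪ E (-1) (-tt x) true x q i))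
        ((E 1 (tt x) false x q i ∪ E 1 (-tt x) false x q i) ∪ (E (-1) (tt x) false x q i ∪ E (-1) (-tt x) false x q i))
      have u1 := measureReal_union_le (μ := μ) (E 1 (tt x) true x q i ∪ E 1 (-tt x) true x q i) (E (-1) (tt x) true x q i ∪ E (-1) (-tt x) true x q i)
      have u2 := measureReal_union_le (μ := μ) (E 1 (tt x) false x q i ∪ E 1 (-tt x) false x q i) (E (-1) (tt x) false x q i ∪ E (-1) (-tt x) false x q i)
      have u3 := measureReal_union_le (μ := μ) (E 1 (tt x) true x q i) (E 1 (-tt x) true x q i)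
      have u4 := measureReal_union_le (μ := μ) (E (-1) (tt x) true x q i) (E (-1) (-tt x) true x q i)
      have u5 := measureReal_union_le (μ := μ) (E 1 (tt x) false x q i) (E 1 (-tt x) false x q i)
      have u6 := measureReal_union_le (μ := μ) (E (-1) (tt x) false x q i) (E (-1) (-tt x) false x q i)
      linarith [h0 1 (tt x) true q i, h0 1 (-tt x) true q i, h0 (-1) (tt x) true q i, h0 (-1) (-tt x) true q i,
        h0 1 (tt x) false q i, h0 1 (-tt x) false q i, h0 (-1) (tt x) false q i, h0 (-1) (-tt x) false q i]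
    have h2 : μ.real (Bad x) ≤ ∑ q ∈ Finset.Icc 1 x, ∑ i ∈ Finset.range (2 * x ^ 4 + 1), 8 * ((x : ℝ) ^ 10)⁻¹ :=
      (measureReal_biUnion_finset_le _ _).trans (Finset.sum_le_sum fun q hq =>
        (measureReal_biUnion_finset_le _ _).trans (Finset.sum_le_sum fun i hi => h1 q i))
    refine h2.trans ?_
    rw [Finset.sum_const, Finset.sum_const, Nat.card_Icc, Nat.add_sub_cancel, Finset.card_range, nsmul_eq_mul, nsmul_eq_mul]
    push_cast
    have e1 : (x : ℝ) * ((2 * (x : ℝ) ^ 4 + 1) * (8 * ((x : ℝ) ^ 10)⁻¹)) ≤ (x : ℝ) * ((3 * (x : ℝ) ^ 4) * (8 * ((x : ℝ) ^ 10)⁻¹)) := by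
      have : (1 : ℝ) ≤ (x : ℝ) ^ 4 := one_le_pow₀ hx0
      gcongr
      linarith
    have e2 : (x : ℝ) * ((3 * (x : ℝ) ^ 4) * (8 * ((x : ℝ) ^ 10)⁻¹)) = 24 * ((x : ℝ) ^ 5)⁻¹ := by
      field_simp
      ring
    have e3 : ((x : ℝ) ^ 5)⁻¹ ≤ ((x : ℝ) ^ 2)⁻¹ := inv_anti₀ (by positivity) (pow_le_pow_right₀ hx0 (by norm_num))
    linarith
  filter_upwards [bc_real (μ := μ) hsum hb] with ω hω
  filter_upwards [hω] with x hx q i hq hqx hi s c hs
  have hmem : ∀ S : Set Ω, S ⊆ G x q i → ω ∉ S := by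
    intro S hS hcon
    apply hx
    simp only [hBad, Set.mem_iUnion]
    exact ⟨q, Finset.mem_Icc.2 ⟨hq, hqx⟩, i, Finset.mem_range.2 (by omega), hS hcon⟩
  rcases hs with rfl | rfl
  · cases c
    · exact ⟨not_le.1 (hmem (E 1 (tt x) false x q i) (fun z hz => Or.inr (Or.inl (Or.inl hz)))),
        not_le.1 (hmem (E 1 (-tt x) false x q i) (fun z hz => Or.inr (Or.inl (Or.inr hz))))⟩
    · exact ⟨not_le.1 (hmem (E 1 (tt x) true x q i) (fun z hz => Or.inl (Or.inl (Or.inl hz)))),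
        not_le.1 (hmem (E 1 (-tt x) true x q i) (fun z hz => Or.inl (Or.inl (Or.inr hz))))⟩
  · cases c
    · exact ⟨not_le.1 (hmem (E (-1) (tt x) false x q i) (fun z hz => Or.inr (Or.inr (Or.inl hz)))),
        not_le.1 (hmem (E (-1) (-tt x) false x q i) (fun z hz => Or.inr (Or.inr (Or.inr hz))))⟩
    · exact ⟨not_le.1 (hmem (E (-1) (tt x) true x q i) (fun z hz => Or.inl (Or.inr (Or.inl hz)))),
        not_le.1 (hmem (E (-1) (-tt x) true x q i) (fun z hz => Or.inl (Or.inr (Or.inr hz))))⟩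

/-- **the martingale part** -/
theorem mart {ω : Ω} (h01 : ∀ n, 0 ≤ dens μ ℱ A n ω ∧ dens μ ℱ A n ω ≤ 1)
    {B : ℝ} (hB : 1 ≤ B) (hd : ∀ n : ℕ, 2 ≤ n → dens μ ℱ A n ω * Real.log n ≤ B)
    {x q i : ℕ} (hx16 : 16 ≤ x) (hlog : 1 ≤ Real.log x) (hb0 : 0 ≤ bb' x q i)
    (hX : ∀ (s : ℝ) (c : Bool), s = 1 ∨ s = -1 →
      Ex μ ℱ A (tt x) (wr μ ℱ A s c (|th x q i| * Real.log x) (th x q i) (bb' x q i) x q) x ω < 10 * Real.log x ∧
      Ex μ ℱ A (-tt x) (wr μ ℱ A s c (|th x q i| * Real.log x) (th x q i) (bb' x q i) x q) x ω < 10 * Real.log x) :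
    ‖∑ k ∈ Finset.range x, Wc μ ℱ A (th x q i) (bb' x q i) x q k ω * (In A (k + 1) ω - dens μ ℱ A k ω : ℝ)‖ ≤
      4 * (24 * B + 10) * (|th x q i| * Real.log x) * √(x : ℝ) := by
  have hxr : (16 : ℝ) ≤ x := by exact_mod_cast hx16
  have hxp : (0 : ℝ) < x := by linarith
  set L := Real.log (x : ℝ) with hL
  set θ := th x q i with hθ
  set b := bb' x q i with hb
  set R := |θ| * L with hR
  have hs0 : 0 < √(x : ℝ) := Real.sqrt_pos.2 hxp
  have ht0 : 0 < tt x := by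
    unfold tt
    rw [← hL]
    have : 0 < L := by linarith
    positivity
  have ht1 : tt x ≤ 1 := by
    unfold tt
    rw [div_le_one hs0]
    exact log_le_sqrt x (by omega)
  have hb1 : b ≤ 1 := by
    rw [hb]
    unfold bb'
    have : 0 ≤ th x q i ^ 2 * Real.log x / 2 := by
      rw [← hL]
      have : 0 ≤ L := by linarith
      positivity
    linarith
  have hWb : ∀ k ∈ Finset.range x, ‖Wc μ ℱ A θ b x q k ω‖ ≤ R := by
    intro k hk
    rw [Finset.mem_range] at hk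
    unfold Wc
    rw [norm_mul, norm_mul, ec_norm, one_mul, Complex.norm_real, Real.norm_eq_abs, abs_of_nonneg (pow_nonneg hb0 _)]
    have e1 : b ^ (Nc x q (k + 1) - Nc (k + 1) q (k + 1)) ≤ 1 := pow_le_one₀ hb0 hb1
    have e2 := ec_sub_one (θ * Real.log ((k + 1 : ℕ) : ℝ))
    have e3 : |θ * Real.log ((k + 1 : ℕ) : ℝ)| ≤ R := by
      rw [abs_mul, abs_of_nonneg (Real.log_natCast_nonneg _), hR]
      exact mul_le_mul_of_nonneg_left (Real.log_le_log (by positivity) (by exact_mod_cast hk)) (abs_nonneg _)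
    calc b ^ (Nc x q (k + 1) - Nc (k + 1) q (k + 1)) * ‖ec (θ * Real.log ((k + 1 : ℕ) : ℝ)) - 1‖
        ≤ 1 * R := mul_le_mul e1 (e2.trans e3) (norm_nonneg _) zero_le_one
      _ = R := one_mul R
  rcases (show 0 ≤ R by rw [hR]; exact mul_nonneg (abs_nonneg _) (by linarith)).eq_or_lt with hR0 | hR0
  · have h1 : ∀ k ∈ Finset.range x, Wc μ ℱ A θ b x q k ω * (In A (k + 1) ω - dens μ ℱ A k ω : ℝ) = 0 := by
      intro k hk
      have := hWb k hk
      rw [← hR0] at this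
      rw [norm_le_zero_iff.1 this, zero_mul]
    rw [Finset.sum_eq_zero h1, norm_zero, ← hR0]
    simp
  have hDs := dens_all (μ := μ) (ℱ := ℱ) (A := A) h01 hB hd hx16 hlog
  have hone : ∀ (s : ℝ) (c : Bool), s = 1 ∨ s = -1 →
      |SI A (wr μ ℱ A s c R θ b x q) x ω - SD μ ℱ A (wr μ ℱ A s c R θ b x q) x ω| ≤ (24 * B + 10) * √(x : ℝ) := by
    intro s c hs
    have hD0 : 0 ≤ SD μ ℱ A (wr μ ℱ A s c R θ b x q) x ω :=
      Finset.sum_nonneg fun k _ => mul_nonneg (wr_mem s c R θ b x q k ω).1 (h01 k).1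
    have hD1 : SD μ ℱ A (wr μ ℱ A s c R θ b x q) x ω ≤ 24 * B * ((x : ℝ) / L) := by
      refine le_trans (Finset.sum_le_sum fun k _ => ?_) hDs
      exact mul_le_of_le_one_left (h01 k).1 (wr_mem s c R θ b x q k ω).2
    obtain ⟨g1, g2⟩ := hX s c hs
    refine (Ex_two ht0 ht1 hD0 g1 g2).trans ?_
    have e1 : tt x * SD μ ℱ A (wr μ ℱ A s c R θ b x q) x ω ≤ tt x * (24 * B * ((x : ℝ) / L)) := mul_le_mul_of_nonneg_left hD1 ht0.le
    have hss : √(x : ℝ) * √(x : ℝ) = x := Real.mul_self_sqrt hxp.le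
    have hL0 : L ≠ 0 := by linarith
    have e2 : tt x * (24 * B * ((x : ℝ) / L)) = 24 * B * √(x : ℝ) := by
      unfold tt
      rw [← hL]
      field_simp
      nlinarith
    have e3 : 10 * L / tt x = 10 * √(x : ℝ) := by
      unfold tt
      rw [← hL]
      field_simp
    linarith
  have hpart : ∀ c : Bool, |∑ k ∈ Finset.range x, pt c (Wc μ ℱ A θ b x q k ω) * (In A (k + 1) ω - dens μ ℱ A k ω)| ≤
      2 * (24 * B + 10) * R * √(x : ℝ) := by
    intro c
    have hw : ∀ k ∈ Finset.range x, pt c (Wc μ ℱ A θ b x q k ω) = R * (wr μ ℱ A 1 c R θ b x q k ω - wr μ ℱ A (-1) c R θ b x q k ω) := by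
      intro k hk
      set y := pt c (Wc μ ℱ A θ b x q k ω) / R with hy
      have hyb : |y| ≤ 1 := by
        rw [hy, abs_div, abs_of_pos hR0, div_le_one hR0]
        exact (pt_le c _).trans (hWb k hk)
      have h := abs_le.1 hyb
      have e1 : wr μ ℱ A 1 c R θ b x q k ω = max 0 y := by
        unfold wr
        rw [one_mul]
        exact min_eq_right (max_le zero_le_one h.2)
      have e2 : wr μ ℱ A (-1) c R θ b x q k ω = max 0 (-y) := by
        unfold wr
        rw [neg_one_mul]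
        exact min_eq_right (max_le zero_le_one (by linarith [h.1]))
      have e3 : pt c (Wc μ ℱ A θ b x q k ω) = R * y := by
        rw [hy]
        field_simp
      rw [e1, e2, e3]
      rcases le_total 0 y with h0 | h0
      · rw [max_eq_right h0, max_eq_left (by linarith)]
        ring
      · rw [max_eq_left h0, max_eq_right (by linarith)]
        ring
    have hsplit : ∑ k ∈ Finset.range x, pt c (Wc μ ℱ A θ b x q k ω) * (In A (k + 1) ω - dens μ ℱ A k ω) =
        R * ((SI A (wr μ ℱ A 1 c R θ b x q) x ω - SD μ ℱ A (wr μ ℱ A 1 c R θ b x q) x ω) -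
          (SI A (wr μ ℱ A (-1) c R θ b x q) x ω - SD μ ℱ A (wr μ ℱ A (-1) c R θ b x q) x ω)) := by
      unfold SI SD
      rw [← Finset.sum_sub_distrib, ← Finset.sum_sub_distrib, ← Finset.sum_sub_distrib, Finset.mul_sum]
      refine Finset.sum_congr rfl fun k hk => ?_
      rw [hw k hk]
      show _ = R * (_ * In A (k + 1) ω - _ - (_ * In A (k + 1) ω - _))
      ring
    rw [hsplit, abs_mul, abs_of_pos hR0]
    have h3 := (abs_sub _ _).trans (add_le_add (hone 1 c (Or.inl rfl)) (hone (-1) c (Or.inr rfl)))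
    refine (mul_le_mul_of_nonneg_left h3 hR0.le).trans (le_of_eq ?_)
    ring
  set Z := ∑ k ∈ Finset.range x, Wc μ ℱ A θ b x q k ω * (In A (k + 1) ω - dens μ ℱ A k ω : ℝ) with hZ
  have hre : Z.re = ∑ k ∈ Finset.range x, pt true (Wc μ ℱ A θ b x q k ω) * (In A (k + 1) ω - dens μ ℱ A k ω) := by
    rw [hZ, Complex.re_sum]
    refine Finset.sum_congr rfl fun k _ => ?_
    rw [Complex.re_mul_ofReal]
    rfl
  have him : Z.im = ∑ k ∈ Finset.range x, pt false (Wc μ ℱ A θ b x q k ω) * (In A (k + 1) ω - dens μ ℱ A k ω) := by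
    rw [hZ, Complex.im_sum]
    refine Finset.sum_congr rfl fun k _ => ?_
    rw [Complex.im_mul_ofReal]
    rfl
  have h4 := Complex.norm_le_abs_re_add_abs_im Z
  rw [hre, him] at h4
  have h5 := hpart true
  have h6 := hpart false
  linarith

end Pool.Agent.N944.NL
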