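import Mathlib
import Pool.Agent.N944.NL.A
import Pool.Agent.N944.MV.C

set_option autoImplicit false
set_option linter.unusedSectionVars false
set_option linter.unusedVariables false

/-! # The normal law over the residue classes in sequential models: the characteristic function -/

open MeasureTheory Filter Set
open scoped ENNReal Topology

namespace Pool.Agent.N944.NL

open Pool.Agent.R528.RM Pool.Agent.N893.SM Pool.Agent.N909.TF Pool.Agent.N944.MV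

variable {Ω : Type} {m0 : MeasurableSpace Ω} {μ : Measure Ω} [IsProbabilityMeasure μ]
  {ℱ : Filtration ℕ m0} {A : ℕ → Set Ω}

/-- the mean of a step -/
noncomputable def cm (z p : ℝ) : ℂ := ec (-(z * p)) * (1 + (p : ℂ) * (ec z - 1))

lemma cm_bound {z p : ℝ} (hz : |z| ≤ 1) (hp0 : 0 ≤ p) (hp1 : p ≤ 1) :
    ‖cm z p - ((1 - p * z ^ 2 / 2 : ℝ) : ℂ)‖ ≤ p * |z| ^ 3 + 2 * (p * |z|) ^ 2 := by
  have hr3 : ‖ec z - (1 + (z : ℂ) * Complex.I - (z : ℂ) ^ 2 / 2)‖ ≤ |z| ^ 3 := by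
    have hn : ‖(z : ℂ) * Complex.I‖ = |z| := by simp
    have h := Complex.exp_bound (x := (z : ℂ) * Complex.I) (by rw [hn]; exact hz) (n := 3) (by norm_num)
    rw [hn] at h
    have e1 : ∑ m ∈ Finset.range 3, ((z : ℂ) * Complex.I) ^ m / (m.factorial : ℂ) = 1 + (z : ℂ) * Complex.I - (z : ℂ) ^ 2 / 2 := by
      simp only [Finset.sum_range_succ, Finset.sum_range_zero, Nat.factorial]
      push_cast
      have : Complex.I ^ 2 = -1 := Complex.I_sq
      linear_combination ((z : ℂ) ^ 2 / 2) * this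
    rw [e1] at h
    refine h.trans ?_
    have : ((Nat.succ 3 : ℕ) : ℝ) * ((Nat.factorial 3 : ℝ) * (3 : ℕ))⁻¹ ≤ 1 := by norm_num [Nat.factorial]
    calc |z| ^ 3 * (((Nat.succ 3 : ℕ) : ℝ) * ((Nat.factorial 3 : ℝ) * (3 : ℕ))⁻¹) ≤ |z| ^ 3 * 1 :=
          mul_le_mul_of_nonneg_left this (by positivity)
      _ = _ := mul_one _
  have hr2 : ‖ec (-(z * p)) - 1 - ((-(z * p) : ℝ) : ℂ) * Complex.I‖ ≤ (p * |z|) ^ 2 := by
    have hn : ‖((-(z * p) : ℝ) : ℂ) * Complex.I‖ = p * |z| := by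
      rw [norm_mul, Complex.norm_I, mul_one, Complex.norm_real, Real.norm_eq_abs, abs_neg, abs_mul, abs_of_nonneg hp0, mul_comm]
    have h := Complex.norm_exp_sub_one_sub_id_le (x := ((-(z * p) : ℝ) : ℂ) * Complex.I) (by
      rw [hn]
      nlinarith [abs_nonneg z])
    rw [hn] at h
    exact h
  have hA : ‖(p : ℂ) * (ec z - 1)‖ ≤ p * |z| := by
    rw [norm_mul, Complex.norm_real, Real.norm_eq_abs, abs_of_nonneg hp0]
    exact mul_le_mul_of_nonneg_left (ec_sub_one z) hp0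
  have hB : ‖ec (-(z * p)) - 1‖ ≤ p * |z| := by
    refine (ec_sub_one _).trans (le_of_eq ?_)
    rw [abs_neg, abs_mul, abs_of_nonneg hp0, mul_comm]
  have e : cm z p - ((1 - p * z ^ 2 / 2 : ℝ) : ℂ) = (ec (-(z * p)) - 1 - ((-(z * p) : ℝ) : ℂ) * Complex.I) +
      (p : ℂ) * (ec z - (1 + (z : ℂ) * Complex.I - (z : ℂ) ^ 2 / 2)) + ((p : ℂ) * (ec z - 1)) * (ec (-(z * p)) - 1) := by
    unfold cm
    push_cast
    ring
  rw [e]
  have h3 : ‖(p : ℂ) * (ec z - (1 + (z : ℂ) * Complex.I - (z : ℂ) ^ 2 / 2))‖ ≤ p * |z| ^ 3 := by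
    rw [norm_mul, Complex.norm_real, Real.norm_eq_abs, abs_of_nonneg hp0]
    exact mul_le_mul_of_nonneg_left hr3 hp0
  have h4 : ‖((p : ℂ) * (ec z - 1)) * (ec (-(z * p)) - 1)‖ ≤ (p * |z|) ^ 2 := by
    rw [norm_mul, sq]
    exact mul_le_mul hA hB (norm_nonneg _) (by positivity)
  refine (norm_add₃_le).trans ?_
  linarith

/-- one step -/
lemma step {z p I : ℝ} (hI : I = 0 ∨ I = 1) :
    ec (z * (I - p)) = cm z p + (ec (-(z * p)) * (ec z - 1)) * ((I - p : ℝ) : ℂ) := by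
  unfold cm
  rcases hI with rfl | rfl
  · rw [show z * (0 - p) = -(z * p) by ring]
    push_cast
    ring
  · rw [show z * (1 - p) = -(z * p) + z by ring, ec_add]
    push_cast
    ring

lemma Nc_succ (x q a : ℕ) : Nc (x + 1) q a = Nc x q a + if x + 1 ≡ a [MOD q] then 1 else 0 := by
  unfold Nc
  rw [Finset.card_filter, Finset.card_filter, Finset.sum_Icc_succ_top (by omega)]

lemma Nc_mono {n x q a : ℕ} (h : n ≤ x) : Nc n q a ≤ Nc x q a := by
  unfold Nc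
  refine Finset.card_le_card fun m hm => ?_
  rw [Finset.mem_filter, Finset.mem_Icc] at hm ⊢
  exact ⟨⟨hm.1.1, hm.1.2.trans h⟩, hm.2⟩

/-- the identity in one class -/
lemma cls_id (u : ℕ → ℝ) (θ : ℝ) (b : ℂ) (q a x : ℕ) :
    ec (θ * SA u x q a) - b ^ (Nc x q a) = ∑ n ∈ (Finset.Icc 1 x).filter (fun n => n ≡ a [MOD q]),
      b ^ (Nc x q a - Nc n q a) * (ec (θ * SA u (n - 1) q a) * (ec (θ * u n) - b)) := by
  induction x with
  | zero => simp [SA, Nc, ec_zero]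
  | succ x ih =>
    rw [Finset.sum_filter, Finset.sum_Icc_succ_top (by omega), Nat.add_sub_cancel, ← Finset.sum_filter]
    by_cases h : x + 1 ≡ a [MOD q]
    · have e1 : Nc (x + 1) q a = Nc x q a + 1 := by rw [Nc_succ, if_pos h]
      have e2 : SA u (x + 1) q a = SA u x q a + u (x + 1) := by rw [SA_succ, if_pos h]
      have e3 : ∑ n ∈ (Finset.Icc 1 x).filter (fun n => n ≡ a [MOD q]),
          b ^ (Nc (x + 1) q a - Nc n q a) * (ec (θ * SA u (n - 1) q a) * (ec (θ * u n) - b)) =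
          b * (ec (θ * SA u x q a) - b ^ (Nc x q a)) := by
        rw [ih, Finset.mul_sum]
        refine Finset.sum_congr rfl fun n hn => ?_
        have h1 := (Finset.mem_Icc.1 (Finset.mem_filter.1 hn).1).2
        have h2 := Nc_mono (q := q) (a := a) h1
        rw [e1, show Nc x q a + 1 - Nc n q a = (Nc x q a - Nc n q a) + 1 by omega, pow_succ]
        ring
      rw [e3, if_pos h, Nat.sub_self, pow_zero, one_mul, e1, e2, mul_add, ec_add, pow_succ]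
      ring
    · have e1 : Nc (x + 1) q a = Nc x q a := by rw [Nc_succ, if_neg h, add_zero]
      have e2 : SA u (x + 1) q a = SA u x q a := by rw [SA_succ, if_neg h, add_zero]
      rw [if_neg h, add_zero, e1, e2, ih]

lemma Icc_rangeC (F : ℕ → ℂ) (x : ℕ) : ∑ n ∈ Finset.Icc 1 x, F n = ∑ k ∈ Finset.range x, F (k + 1) := by
  induction x with
  | zero => simp
  | succ x ih => rw [Finset.sum_Icc_succ_top (by omega), ih, Finset.sum_range_succ]

lemma Nc_congr {x q a b : ℕ} (h : a ≡ b [MOD q]) : Nc x q a = Nc x q b := by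
  unfold Nc
  congr 1
  refine Finset.filter_congr fun n _ => ?_
  exact ⟨fun h1 => h1.trans h, fun h1 => h1.trans h.symm⟩

/-- all classes together -/
lemma all_id (u : ℕ → ℝ) (θ : ℝ) (b : ℂ) {q : ℕ} (hq : 1 ≤ q) (x : ℕ) :
    ∑ a ∈ Finset.Icc 1 q, (ec (θ * SA u x q a) - b ^ (Nc x q a)) = ∑ k ∈ Finset.range x,
      b ^ (Nc x q (k + 1) - Nc (k + 1) q (k + 1)) * (ec (θ * SA u k q (k + 1)) * (ec (θ * u (k + 1)) - b)) := by
  have h1 : ∀ a ∈ Finset.Icc 1 q, ec (θ * SA u x q a) - b ^ (Nc x q a) = ∑ n ∈ Finset.Icc 1 x,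
      if n ≡ a [MOD q] then b ^ (Nc x q n - Nc n q n) * (ec (θ * SA u (n - 1) q n) * (ec (θ * u n) - b)) else 0 := by
    intro a _
    rw [cls_id, Finset.sum_filter]
    refine Finset.sum_congr rfl fun n _ => ?_
    split_ifs with h
    · rw [Nc_congr h.symm, Nc_congr (x := n) h.symm, SA_congr u h.symm]
    · rfl
  rw [Finset.sum_congr rfl h1, Finset.sum_comm, Icc_rangeC]
  refine Finset.sum_congr rfl fun k _ => ?_
  rw [← Finset.sum_filter, cls hq, Finset.sum_singleton, Nat.add_sub_cancel]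

/-- the deviation of the densities -/
noncomputable def Dl (μ : Measure Ω) (ℱ : Filtration ℕ m0) (A : ℕ → Set Ω) (x : ℕ) (ω : Ω) : ℝ :=
  ∑ k ∈ Finset.range x, |Real.log x - dens μ ℱ A k ω * Real.log ((k + 1 : ℕ) : ℝ) ^ 2|

lemma pl_le {ω : Ω} (h01 : ∀ n, 0 ≤ dens μ ℱ A n ω ∧ dens μ ℱ A n ω ≤ 1)
    {B : ℝ} (hB : 1 ≤ B) (hd : ∀ n : ℕ, 2 ≤ n → dens μ ℱ A n ω * Real.log n ≤ B) (k : ℕ) :
    Real.log ((k + 1 : ℕ) : ℝ) * dens μ ℱ A k ω ≤ 2 * B := by
  set l := Real.log ((k + 1 : ℕ) : ℝ) with hl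
  have hl0 : 0 ≤ l := Real.log_natCast_nonneg _
  set p := dens μ ℱ A k ω with hp
  have hp0 : 0 ≤ p := (h01 k).1
  have hp1 : p ≤ 1 := (h01 k).2
  by_cases h2 : 2 ≤ k
  · have e1 : l ≤ 2 * Real.log k := by
      have e2 : ((k + 1 : ℕ) : ℝ) ≤ (k : ℝ) ^ 2 := by
        have : k + 1 ≤ k ^ 2 := by nlinarith
        exact_mod_cast this
      have e3 := Real.log_le_log (by positivity) e2
      rw [Real.log_pow] at e3
      exact_mod_cast e3
    have e4 := hd k h2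
    nlinarith
  · have e1 : l ≤ 1 := by
      have e2 : ((k + 1 : ℕ) : ℝ) ≤ 2 := by exact_mod_cast (by omega : k + 1 ≤ 2)
      have e3 := Real.log_le_sub_one_of_pos (show (0 : ℝ) < ((k + 1 : ℕ) : ℝ) by positivity)
      linarith
    nlinarith

/-- **the characteristic function against the sum of the powers** -/
theorem char_main {ω : Ω} (h01 : ∀ n, 0 ≤ dens μ ℱ A n ω ∧ dens μ ℱ A n ω ≤ 1)
    {B : ℝ} (hB : 1 ≤ B) (hd : ∀ n : ℕ, 2 ≤ n → dens μ ℱ A n ω * Real.log n ≤ B)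
    {x q i : ℕ} (hx16 : 16 ≤ x) (hlog : 1 ≤ Real.log x) (hq : 1 ≤ q) (hb0 : 0 ≤ bb' x q i)
    (hth : |th x q i| * Real.log x ≤ 1)
    (hX : ∀ (s : ℝ) (c : Bool), s = 1 ∨ s = -1 →
      Ex μ ℱ A (tt x) (wr μ ℱ A s c (|th x q i| * Real.log x) (th x q i) (bb' x q i) x q) x ω < 10 * Real.log x ∧
      Ex μ ℱ A (-tt x) (wr μ ℱ A s c (|th x q i| * Real.log x) (th x q i) (bb' x q i) x q) x ω < 10 * Real.log x) :
    ‖∑ a ∈ Finset.Icc 1 q, (ec (th x q i * dv μ ℱ A x q a ω) - ((bb' x q i : ℝ) : ℂ) ^ (Nc x q a))‖ ≤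
      4 * (24 * B + 10) * (|th x q i| * Real.log x) * √(x : ℝ) + th x q i ^ 2 / 2 * Dl μ ℱ A x ω +
        x * (2 * B * (|th x q i| ^ 3 * Real.log x ^ 2) + 8 * B ^ 2 * th x q i ^ 2) := by
  set L := Real.log (x : ℝ) with hL
  set θ := th x q i with hθ
  set b := bb' x q i with hb
  have hL0 : 0 < L := by linarith
  have hb1 : b = 1 - θ ^ 2 * L / 2 := rfl
  have hble : b ≤ 1 := by
    rw [hb1]
    have : 0 ≤ θ ^ 2 * L / 2 := by positivity
    linarith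
  have hid := all_id (fun n => Real.log n * dif μ ℱ A ω n) θ ((b : ℝ) : ℂ) hq x
  have e1 : ∑ a ∈ Finset.Icc 1 q, (ec (θ * dv μ ℱ A x q a ω) - ((b : ℝ) : ℂ) ^ (Nc x q a)) =
      ∑ k ∈ Finset.range x, Wc μ ℱ A θ b x q k ω * ((In A (k + 1) ω - dens μ ℱ A k ω : ℝ) : ℂ) +
      ∑ k ∈ Finset.range x, ((b : ℝ) : ℂ) ^ (Nc x q (k + 1) - Nc (k + 1) q (k + 1)) *
        (ec (θ * dv μ ℱ A k q (k + 1) ω) * (cm (θ * Real.log ((k + 1 : ℕ) : ℝ)) (dens μ ℱ A k ω) - ((b : ℝ) : ℂ))) := by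
    rw [← Finset.sum_add_distrib]
    refine hid.trans (Finset.sum_congr rfl fun k _ => ?_)
    have e2 : θ * (Real.log ((k + 1 : ℕ) : ℝ) * dif μ ℱ A ω (k + 1)) =
        (θ * Real.log ((k + 1 : ℕ) : ℝ)) * (In A (k + 1) ω - dens μ ℱ A k ω) := by
      have : dif μ ℱ A ω (k + 1) = In A (k + 1) ω - dens μ ℱ A k ω := rfl
      rw [this]
      ring
    rw [e2, step (In_or (A := A) (k + 1) ω)]
    unfold Wc
    rw [ec_add]
    have e3 : SA (fun n => Real.log n * dif μ ℱ A ω n) k q (k + 1) = dv μ ℱ A k q (k + 1) ω := rfl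
    rw [e3]
    push_cast
    ring
  rw [e1]
  refine (norm_add_le _ _).trans ?_
  have h1 := mart (μ := μ) (ℱ := ℱ) (A := A) h01 hB hd hx16 hlog hb0 hX
  rw [← hL, ← hθ, ← hb] at h1
  have h2 : ‖∑ k ∈ Finset.range x, ((b : ℝ) : ℂ) ^ (Nc x q (k + 1) - Nc (k + 1) q (k + 1)) *
        (ec (θ * dv μ ℱ A k q (k + 1) ω) * (cm (θ * Real.log ((k + 1 : ℕ) : ℝ)) (dens μ ℱ A k ω) - ((b : ℝ) : ℂ)))‖ ≤
      ∑ k ∈ Finset.range x, (θ ^ 2 / 2 * |L - dens μ ℱ A k ω * Real.log ((k + 1 : ℕ) : ℝ) ^ 2| +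
        (2 * B * (|θ| ^ 3 * L ^ 2) + 8 * B ^ 2 * θ ^ 2)) := by
    refine (norm_sum_le _ _).trans (Finset.sum_le_sum fun k hk => ?_)
    rw [Finset.mem_range] at hk
    rw [norm_mul, norm_mul, ec_norm, one_mul, norm_pow, Complex.norm_real, Real.norm_eq_abs, abs_of_nonneg hb0]
    have g1 : b ^ (Nc x q (k + 1) - Nc (k + 1) q (k + 1)) ≤ 1 := pow_le_one₀ hb0 hble
    refine (mul_le_of_le_one_left (norm_nonneg _) g1).trans ?_
    set l := Real.log ((k + 1 : ℕ) : ℝ) with hl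
    have hl0 : 0 ≤ l := Real.log_natCast_nonneg _
    have hlL : l ≤ L := Real.log_le_log (by positivity) (by exact_mod_cast hk)
    set p := dens μ ℱ A k ω with hp
    have hp0 : 0 ≤ p := (h01 k).1
    have hp1 : p ≤ 1 := (h01 k).2
    have hpl : l * p ≤ 2 * B := pl_le h01 hB hd k
    have hz : |θ * l| ≤ 1 := by
      rw [abs_mul, abs_of_nonneg hl0]
      exact (mul_le_mul_of_nonneg_left hlL (abs_nonneg _)).trans hth
    have g2 := cm_bound hz hp0 hp1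
    have g3 : ‖((1 - p * (θ * l) ^ 2 / 2 : ℝ) : ℂ) - ((b : ℝ) : ℂ)‖ = θ ^ 2 / 2 * |L - p * l ^ 2| := by
      rw [← Complex.ofReal_sub, Complex.norm_real, Real.norm_eq_abs, hb1]
      have : 1 - p * (θ * l) ^ 2 / 2 - (1 - θ ^ 2 * L / 2) = θ ^ 2 / 2 * (L - p * l ^ 2) := by ring
      rw [this, abs_mul, abs_of_nonneg (by positivity)]
    have g4 : ‖cm (θ * l) p - ((b : ℝ) : ℂ)‖ ≤ (p * |θ * l| ^ 3 + 2 * (p * |θ * l|) ^ 2) + θ ^ 2 / 2 * |L - p * l ^ 2| := by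
      rw [← g3]
      refine le_trans (le_of_eq ?_) ((norm_add_le _ _).trans (add_le_add g2 le_rfl))
      congr 1
      ring
    have g5 : |θ * l| = |θ| * l := by rw [abs_mul, abs_of_nonneg hl0]
    rw [g5] at g4
    have hθ0 : 0 ≤ |θ| := abs_nonneg _
    have g6 : p * (|θ| * l) ^ 3 ≤ 2 * B * (|θ| ^ 3 * L ^ 2) := by
      have e5 : l ^ 2 ≤ L ^ 2 := pow_le_pow_left₀ hl0 hlL 2
      calc p * (|θ| * l) ^ 3 = (l * p) * (|θ| ^ 3 * l ^ 2) := by ring
        _ ≤ (2 * B) * (|θ| ^ 3 * L ^ 2) := mul_le_mul hpl (mul_le_mul_of_nonneg_left e5 (by positivity)) (by positivity) (by positivity)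
    have g7 : (p * (|θ| * l)) ^ 2 ≤ 4 * B ^ 2 * θ ^ 2 := by
      have e5 : (p * (|θ| * l)) ^ 2 = (l * p) ^ 2 * θ ^ 2 := by
        rw [mul_pow, mul_pow, sq_abs]
        ring
      rw [e5]
      have e6 : (l * p) ^ 2 ≤ (2 * B) ^ 2 := pow_le_pow_left₀ (mul_nonneg hl0 hp0) hpl 2
      nlinarith [sq_nonneg θ]
    linarith
  rw [Finset.sum_add_distrib, ← Finset.mul_sum, Finset.sum_const, Finset.card_range, nsmul_eq_mul] at h2
  unfold Dl
  linarith

end Pool.Agent.N944.NL
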