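import Mathlib
import Pool.Agent.N944.NL.B

set_option autoImplicit false
set_option linter.unusedSectionVars false
set_option linter.unusedVariables false

/-! # The normal law over the residue classes in sequential models: the estimates -/

open MeasureTheory Filter Set
open scoped ENNReal Topology

namespace Pool.Agent.N944.NL

open Pool.Agent.R528.RM Pool.Agent.N893.SM Pool.Agent.N909.TF Pool.Agent.N944.MV

variable {Ω : Type} {m0 : MeasurableSpace Ω} {μ : Measure Ω} [IsProbabilityMeasure μ]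
  {ℱ : Filtration ℕ m0} {A : ℕ → Set Ω}

lemma log_succ {x : ℕ} (h : 1 ≤ x) : Real.log ((x + 1 : ℕ) : ℝ) - Real.log x ≤ 1 / x := by
  have hx : (0 : ℝ) < x := by exact_mod_cast h
  have e3 : Real.log ((x + 1 : ℕ) : ℝ) - Real.log x = Real.log (((x + 1 : ℕ) : ℝ) / x) := by
    rw [Real.log_div (by positivity) hx.ne']
  have e4 := Real.log_le_sub_one_of_pos (show (0 : ℝ) < ((x + 1 : ℕ) : ℝ) / x by positivity)
  rw [e3]
  have e5 : ((x + 1 : ℕ) : ℝ) / x - 1 = 1 / x := by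
    push_cast
    field_simp
    ring
  rwa [e5] at e4

lemma log_gap (x : ℕ) : ∑ k ∈ Finset.range x, (Real.log x - Real.log ((k + 1 : ℕ) : ℝ)) ≤ x := by
  induction x with
  | zero => simp
  | succ x ih =>
    rw [Finset.sum_range_succ, sub_self, add_zero]
    have e1 : ∑ k ∈ Finset.range x, (Real.log ((x + 1 : ℕ) : ℝ) - Real.log ((k + 1 : ℕ) : ℝ)) =
        ∑ k ∈ Finset.range x, (Real.log x - Real.log ((k + 1 : ℕ) : ℝ)) + x * (Real.log ((x + 1 : ℕ) : ℝ) - Real.log x) := by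
      rw [Finset.sum_sub_distrib, Finset.sum_sub_distrib, Finset.sum_const, Finset.sum_const, Finset.card_range, nsmul_eq_mul, nsmul_eq_mul]
      ring
    rw [e1]
    have e2 : (x : ℝ) * (Real.log ((x + 1 : ℕ) : ℝ) - Real.log x) ≤ 1 := by
      rcases Nat.eq_zero_or_pos x with h | h
      · subst h
        simp
      · have hx : (0 : ℝ) < x := by exact_mod_cast h
        calc _ ≤ (x : ℝ) * (1 / x) := mul_le_mul_of_nonneg_left (log_succ h) hx.le
          _ = 1 := by field_simp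
    have e3 : ((x + 1 : ℕ) : ℝ) = x + 1 := by push_cast; ring
    linarith

lemma shift_log {ω : Ω} (h01 : ∀ n, 0 ≤ dens μ ℱ A n ω ∧ dens μ ℱ A n ω ≤ 1)
    (hl : Tendsto (fun n : ℕ => dens μ ℱ A n ω * Real.log n) atTop (𝓝 1)) :
    Tendsto (fun n : ℕ => dens μ ℱ A n ω * Real.log ((n + 1 : ℕ) : ℝ)) atTop (𝓝 1) := by
  have h1 : Tendsto (fun n : ℕ => dens μ ℱ A n ω * (Real.log ((n + 1 : ℕ) : ℝ) - Real.log n)) atTop (𝓝 0) := by
    refine squeeze_zero' ?_ ?_ (tendsto_one_div_atTop_nhds_zero_nat)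
    · filter_upwards [eventually_ge_atTop 1] with n hn
      have hn0 : (0 : ℝ) < n := by exact_mod_cast hn
      exact mul_nonneg (h01 n).1 (sub_nonneg.2 (Real.log_le_log hn0 (by push_cast; linarith)))
    · filter_upwards [eventually_ge_atTop 1] with n hn
      have hn0 : (0 : ℝ) < n := by exact_mod_cast hn
      have h2 : 0 ≤ Real.log ((n + 1 : ℕ) : ℝ) - Real.log n := sub_nonneg.2 (Real.log_le_log hn0 (by push_cast; linarith))
      exact (mul_le_of_le_one_left h2 (h01 n).2).trans (log_succ hn)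
  have h2 := hl.add h1
  rw [add_zero] at h2
  refine h2.congr fun n => ?_
  ring

theorem Dl_small {ω : Ω} (h01 : ∀ n, 0 ≤ dens μ ℱ A n ω ∧ dens μ ℱ A n ω ≤ 1)
    (hl : Tendsto (fun n : ℕ => dens μ ℱ A n ω * Real.log n) atTop (𝓝 1)) {ε : ℝ} (hε : 0 < ε) :
    ∀ᶠ x : ℕ in atTop, Dl μ ℱ A x ω ≤ ε * (x * Real.log x) := by
  have h1 : Tendsto (fun n : ℕ => |1 - dens μ ℱ A n ω * Real.log ((n + 1 : ℕ) : ℝ)|) atTop (𝓝 0) := by
    have := ((shift_log h01 hl).const_sub 1).abs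
    rwa [sub_self, abs_zero] at this
  have h3 := h1.cesaro.eventually (gt_mem_nhds (show (0 : ℝ) < ε / 2 by positivity))
  filter_upwards [h3, eventually_ge_atTop 1, tendsto_log.eventually_ge_atTop (2 / ε)] with x hx hx1 hlog
  have hxp : (0 : ℝ) < x := by exact_mod_cast hx1
  have h4 : Dl μ ℱ A x ω ≤ x + Real.log x * ∑ k ∈ Finset.range x, |1 - dens μ ℱ A k ω * Real.log ((k + 1 : ℕ) : ℝ)| := by
    unfold Dl
    refine le_trans (Finset.sum_le_sum (g := fun k : ℕ => (Real.log x - Real.log ((k + 1 : ℕ) : ℝ)) +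
      Real.log x * |1 - dens μ ℱ A k ω * Real.log ((k + 1 : ℕ) : ℝ)|) fun k hk => ?_) ?_
    · rw [Finset.mem_range] at hk
      set l := Real.log ((k + 1 : ℕ) : ℝ) with hl'
      have hl0 : 0 ≤ l := Real.log_natCast_nonneg _
      have hlL : l ≤ Real.log x := Real.log_le_log (by positivity) (by exact_mod_cast hk)
      have e1 : Real.log x - dens μ ℱ A k ω * l ^ 2 = (Real.log x - l) + l * (1 - dens μ ℱ A k ω * l) := by ring
      rw [e1]
      refine (abs_add_le _ _).trans (add_le_add (le_of_eq (abs_of_nonneg (sub_nonneg.2 hlL))) ?_)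
      rw [abs_mul, abs_of_nonneg hl0]
      exact mul_le_mul_of_nonneg_right hlL (abs_nonneg _)
    · rw [Finset.sum_add_distrib, ← Finset.mul_sum]
      linarith [log_gap x]
  set S := ∑ k ∈ Finset.range x, |1 - dens μ ℱ A k ω * Real.log ((k + 1 : ℕ) : ℝ)| with hS
  have h5 : S ≤ ε / 2 * x := by
    have h6 : (x : ℝ)⁻¹ * S < ε / 2 := hx
    rw [inv_mul_lt_iff₀ hxp] at h6
    linarith
  have h6 : 1 ≤ ε / 2 * Real.log x := by
    rw [div_le_iff₀ hε] at hlog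
    linarith
  have hL0 : 0 ≤ Real.log x := Real.log_natCast_nonneg _
  have h7 : (x : ℝ) ≤ x * (ε / 2 * Real.log x) := le_mul_of_one_le_right hxp.le h6
  have h8 : Real.log x * S ≤ Real.log x * (ε / 2 * x) := mul_le_mul_of_nonneg_left h5 hL0
  linarith

lemma Nc_bounds {x q a : ℕ} (hq : 1 ≤ q) (ha : 1 ≤ a) (haq : a ≤ q) : |(Nc x q a : ℝ) - x / q| ≤ 1 := by
  have h1 : (Nc x q a : ℝ) = Jn x q a := by
    have h2 := SA_eq (fun _ => (1 : ℝ)) (x := x) hq ha haq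
    rw [Finset.sum_const, Finset.card_range, nsmul_eq_mul, mul_one] at h2
    rw [← h2]
    unfold SA Nc
    rw [Finset.sum_const, nsmul_eq_mul, mul_one]
  obtain ⟨j1, j2⟩ := Jn_bounds (x := x) hq haq
  rw [h1, abs_le]
  constructor <;> linarith

lemma pow_close {c X : ℝ} (hc0 : 0 ≤ c) (hc : c ≤ 1 / 2) (hX : 0 ≤ X) (N : ℕ) (hN : |(N : ℝ) - X| ≤ 1) :
    |(1 - c) ^ N - Real.exp (-(c * X))| ≤ c * (2 + 2 * (c * X)) := by
  have hN' := abs_le.1 hN
  set e := Real.exp (-(c * X)) with he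
  have he0 : 0 < e := Real.exp_pos _
  have he1 : e ≤ 1 := Real.exp_le_one_iff.2 (by have := mul_nonneg hc0 hX; linarith)
  have hcX : 0 ≤ c * X := mul_nonneg hc0 hX
  have hc1 : 0 < 1 - c := by linarith
  rw [abs_le]
  constructor
  · have h1 : Real.exp (-(c + 2 * c ^ 2)) ≤ 1 - c := by
      have h2 := Real.add_one_le_exp (c + 2 * c ^ 2)
      rw [Real.exp_neg, inv_le_comm₀ (Real.exp_pos _) hc1]
      refine le_trans ?_ h2
      rw [inv_le_iff_one_le_mul₀ hc1]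
      nlinarith [sq_nonneg c, mul_nonneg hc0 (sq_nonneg c)]
    have h3 : Real.exp (-(c + 2 * c ^ 2)) ^ N ≤ (1 - c) ^ N := pow_le_pow_left₀ (Real.exp_pos _).le h1 N
    rw [← Real.exp_nat_mul] at h3
    have h4 : e * (1 - (c + 2 * c ^ 2 + 2 * c * (c * X))) ≤ Real.exp (N * -(c + 2 * c ^ 2)) := by
      have h5 : Real.exp (-(c * X)) * Real.exp (-(c + 2 * c ^ 2 + 2 * c * (c * X))) ≤ Real.exp (N * -(c + 2 * c ^ 2)) := by
        rw [← Real.exp_add]
        apply Real.exp_le_exp.2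
        have h6 : (N : ℝ) * (c + 2 * c ^ 2) ≤ (X + 1) * (c + 2 * c ^ 2) := mul_le_mul_of_nonneg_right (by linarith) (by positivity)
        nlinarith
      refine le_trans (mul_le_mul_of_nonneg_left ?_ he0.le) h5
      have := Real.add_one_le_exp (-(c + 2 * c ^ 2 + 2 * c * (c * X)))
      linarith
    have h7 : 0 ≤ c + 2 * c ^ 2 + 2 * c * (c * X) := by positivity
    have h8 : e * (c + 2 * c ^ 2 + 2 * c * (c * X)) ≤ c + 2 * c ^ 2 + 2 * c * (c * X) := mul_le_of_le_one_left h7 he1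
    nlinarith
  · have h1 : 1 - c ≤ Real.exp (-c) := by
      have := Real.add_one_le_exp (-c)
      linarith
    have h2 : (1 - c) ^ N ≤ Real.exp (-c) ^ N := pow_le_pow_left₀ hc1.le h1 N
    rw [← Real.exp_nat_mul] at h2
    have h3 : Real.exp (N * -c) ≤ e * Real.exp c := by
      rw [he, ← Real.exp_add]
      apply Real.exp_le_exp.2
      nlinarith
    have h4 : Real.exp c ≤ 1 + 2 * c := by
      have h5 : Real.exp (-c) * Real.exp c = 1 := by rw [← Real.exp_add]; simp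
      have h6 : (1 - c) * Real.exp c ≤ 1 := (mul_le_mul_of_nonneg_right h1 (Real.exp_pos _).le).trans (le_of_eq h5)
      have h7 := Real.exp_pos c
      nlinarith
    have h5 : e * Real.exp c ≤ e * (1 + 2 * c) := mul_le_mul_of_nonneg_left h4 he0.le
    have h6 : e * (2 * c) ≤ 2 * c := mul_le_of_le_one_left (by linarith) he1
    nlinarith

/-- **the characteristic function at the grid points** -/
theorem est {ω : Ω} (h01 : ∀ n, 0 ≤ dens μ ℱ A n ω ∧ dens μ ℱ A n ω ≤ 1)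
    {B : ℝ} (hB : 1 ≤ B) (hd : ∀ n : ℕ, 2 ≤ n → dens μ ℱ A n ω * Real.log n ≤ B)
    {x q i : ℕ} (hx16 : 16 ≤ x) (hlog : 1 ≤ Real.log x) (hq : 1 ≤ q) {T K ε : ℝ} (hT : 1 ≤ T) (hK : T ^ 2 ≤ K)
    (hi : |gt x i| ≤ T) (h1 : K * Real.log x ≤ q) (h2 : K * q * Real.log x ≤ x)
    (hDl : Dl μ ℱ A x ω ≤ ε * (x * Real.log x))
    (hX : ∀ (s : ℝ) (c : Bool), s = 1 ∨ s = -1 →
      Ex μ ℱ A (tt x) (wr μ ℱ A s c (|th x q i| * Real.log x) (th x q i) (bb' x q i) x q) x ω < 10 * Real.log x ∧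
      Ex μ ℱ A (-tt x) (wr μ ℱ A s c (|th x q i| * Real.log x) (th x q i) (bb' x q i) x q) x ω < 10 * Real.log x) :
    ‖(∑ a ∈ Finset.Icc 1 q, ec (th x q i * dv μ ℱ A x q a ω)) / q - ((Real.exp (-(gt x i ^ 2 / 2)) : ℝ) : ℂ)‖ ≤
      4 * (24 * B + 10) * (T / √K) + T ^ 2 / 2 * ε + 2 * B * T ^ 2 * (T / √K) + 8 * B ^ 2 * T ^ 2 / Real.log x +
        T ^ 2 / K * (2 + T ^ 2) := by
  set L := Real.log (x : ℝ) with hL
  have hxr : (16 : ℝ) ≤ x := by exact_mod_cast hx16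
  have hxp : (0 : ℝ) < x := by linarith
  have hL0 : 0 < L := by linarith
  have hqr : (1 : ℝ) ≤ q := by exact_mod_cast hq
  have hqp : (0 : ℝ) < q := by linarith
  have hT2 : 1 ≤ T ^ 2 := by nlinarith
  have hK1 : 1 ≤ K := hT2.trans hK
  have hK0 : 0 < K := by linarith
  set t := gt x i with ht
  set θ := th x q i with hθ
  have hσ2 : sg x q ^ 2 = x * L / q := by
    unfold sg
    rw [Real.sq_sqrt (by positivity)]
  have hσ0 : 0 < sg x q := by
    unfold sg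
    apply Real.sqrt_pos.2
    positivity
  have hθ2 : θ ^ 2 = t ^ 2 * q / (x * L) := by
    rw [hθ]
    unfold th
    rw [div_pow, hσ2, ← ht]
    field_simp
  have ht2 : t ^ 2 ≤ T ^ 2 := by
    rw [← sq_abs t]
    exact pow_le_pow_left₀ (abs_nonneg _) hi 2
  have ht0 : 0 ≤ t ^ 2 := sq_nonneg t
  -- the size of `θ L`
  have hsqK : 0 < √K := Real.sqrt_pos.2 hK0
  have hTK : (T / √K) ^ 2 = T ^ 2 / K := by rw [div_pow, Real.sq_sqrt hK0.le]
  have hTK0 : 0 ≤ T / √K := by positivity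
  have hTK1 : T / √K ≤ 1 := by
    rw [div_le_one hsqK]
    exact Real.le_sqrt_of_sq_le hK
  have hu : |θ| * L ≤ T / √K := by
    refine (pow_le_pow_iff_left₀ (by positivity) hTK0 two_ne_zero).1 ?_
    rw [hTK, mul_pow, sq_abs, hθ2]
    have e1 : t ^ 2 * q / (x * L) * L ^ 2 = t ^ 2 * ((q * L) / x) := by
      field_simp
    rw [e1]
    have e2 : (q * L) / x ≤ 1 / K := by
      rw [div_le_div_iff₀ hxp hK0]
      nlinarith
    calc t ^ 2 * ((q * L) / x) ≤ T ^ 2 * (1 / K) := mul_le_mul ht2 e2 (by positivity) (by positivity)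
      _ = T ^ 2 / K := by ring
  set c := θ ^ 2 * L / 2 with hc
  have hc0 : 0 ≤ c := by positivity
  have hcq : c = t ^ 2 / 2 * (q / x) := by
    rw [hc, hθ2]
    field_simp
  have hcK : c ≤ T ^ 2 / K / 2 := by
    rw [hcq]
    have e2 : (q : ℝ) / x ≤ 1 / K := by
      rw [div_le_div_iff₀ hxp hK0]
      nlinarith [mul_pos hK0 hqp]
    calc t ^ 2 / 2 * (q / x) ≤ T ^ 2 / 2 * (1 / K) := mul_le_mul (by linarith) e2 (by positivity) (by positivity)
      _ = _ := by ring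
  have hTK2 : T ^ 2 / K ≤ 1 := by
    rw [div_le_one hK0]
    exact hK
  have hc12 : c ≤ 1 / 2 := by linarith
  have hbc : bb' x q i = 1 - c := rfl
  have hb0 : 0 ≤ bb' x q i := by rw [hbc]; linarith
  have hmain := char_main (μ := μ) (ℱ := ℱ) (A := A) h01 hB hd hx16 hlog hq hb0 (by rw [← hL, ← hθ]; linarith) hX
  rw [← hL, ← hθ] at hmain
  have hcX : c * (x / q) = t ^ 2 / 2 := by
    rw [hcq]
    field_simp
  -- the powers
  have hpow : ∀ a ∈ Finset.Icc 1 q, ‖((bb' x q i : ℝ) : ℂ) ^ (Nc x q a) - ((Real.exp (-(t ^ 2 / 2)) : ℝ) : ℂ)‖ ≤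
      T ^ 2 / K * (2 + T ^ 2) := by
    intro a ha
    have ha1 := Finset.mem_Icc.1 ha
    have e1 := pow_close hc0 hc12 (show 0 ≤ (x : ℝ) / q by positivity) (Nc x q a) (Nc_bounds hq ha1.1 ha1.2)
    rw [hcX] at e1
    rw [← Complex.ofReal_pow, ← Complex.ofReal_sub, Complex.norm_real, Real.norm_eq_abs, hbc]
    refine e1.trans ?_
    have e2 : 2 + 2 * (t ^ 2 / 2) ≤ 2 + T ^ 2 := by linarith
    calc c * (2 + 2 * (t ^ 2 / 2)) ≤ (T ^ 2 / K / 2) * (2 + T ^ 2) := mul_le_mul hcK e2 (by positivity) (by positivity)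
      _ ≤ _ := by
        have : 0 ≤ T ^ 2 / K * (2 + T ^ 2) := by positivity
        linarith
  have hsplit : (∑ a ∈ Finset.Icc 1 q, ec (θ * dv μ ℱ A x q a ω)) / q - ((Real.exp (-(t ^ 2 / 2)) : ℝ) : ℂ) =
      (∑ a ∈ Finset.Icc 1 q, (ec (θ * dv μ ℱ A x q a ω) - ((bb' x q i : ℝ) : ℂ) ^ (Nc x q a)) +
        ∑ a ∈ Finset.Icc 1 q, (((bb' x q i : ℝ) : ℂ) ^ (Nc x q a) - ((Real.exp (-(t ^ 2 / 2)) : ℝ) : ℂ))) / q := by
    rw [← Finset.sum_add_distrib]
    have e1 : ∀ a ∈ Finset.Icc 1 q, (ec (θ * dv μ ℱ A x q a ω) - ((bb' x q i : ℝ) : ℂ) ^ (Nc x q a)) +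
        (((bb' x q i : ℝ) : ℂ) ^ (Nc x q a) - ((Real.exp (-(t ^ 2 / 2)) : ℝ) : ℂ)) =
        ec (θ * dv μ ℱ A x q a ω) - ((Real.exp (-(t ^ 2 / 2)) : ℝ) : ℂ) := fun a _ => by ring
    rw [Finset.sum_congr rfl e1, Finset.sum_sub_distrib, Finset.sum_const, Nat.card_Icc, Nat.add_sub_cancel, nsmul_eq_mul, sub_div]
    congr 1
    have : (q : ℂ) ≠ 0 := by exact_mod_cast (by omega : q ≠ 0)
    field_simp
  rw [hsplit, norm_div, Complex.norm_natCast, div_le_iff₀ hqp]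
  have hsum2 : ‖∑ a ∈ Finset.Icc 1 q, (((bb' x q i : ℝ) : ℂ) ^ (Nc x q a) - ((Real.exp (-(t ^ 2 / 2)) : ℝ) : ℂ))‖ ≤
      q * (T ^ 2 / K * (2 + T ^ 2)) := by
    refine ((norm_sum_le _ _).trans (Finset.sum_le_sum hpow)).trans (le_of_eq ?_)
    rw [Finset.sum_const, Nat.card_Icc, Nat.add_sub_cancel, nsmul_eq_mul]
  refine (norm_add_le _ _).trans ((add_le_add hmain hsum2).trans ?_)
  -- the four parts
  have g1 : |θ| * L * √(x : ℝ) ≤ (T / √K) * q := by
    refine (pow_le_pow_iff_left₀ (by positivity) (by positivity) two_ne_zero).1 ?_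
    rw [mul_pow, mul_pow, mul_pow, sq_abs, Real.sq_sqrt hxp.le, hTK, hθ2]
    have e1 : t ^ 2 * q / (x * L) * L ^ 2 * x = t ^ 2 * (q * L) := by
      field_simp
    rw [e1]
    have e2 : L ≤ (1 / K) * q := by
      rw [one_div, inv_mul_eq_div, le_div_iff₀ hK0]
      linarith
    calc t ^ 2 * (q * L) ≤ T ^ 2 * (q * ((1 / K) * q)) :=
          mul_le_mul ht2 (mul_le_mul_of_nonneg_left e2 hqp.le) (by positivity) (by positivity)
      _ = _ := by ring
  have g2 : θ ^ 2 / 2 * Dl μ ℱ A x ω ≤ T ^ 2 / 2 * ε * q := by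
    have e0 : 0 ≤ Dl μ ℱ A x ω := Finset.sum_nonneg fun k _ => abs_nonneg _
    have e1 : θ ^ 2 / 2 * Dl μ ℱ A x ω ≤ θ ^ 2 / 2 * (ε * (x * L)) := mul_le_mul_of_nonneg_left hDl (by positivity)
    have e3 : 0 ≤ ε := by
      by_contra hcon
      push Not at hcon
      have : ε * (x * L) < 0 := mul_neg_of_neg_of_pos hcon (by positivity)
      linarith
    have e2 : θ ^ 2 / 2 * (ε * (x * L)) = t ^ 2 / 2 * (ε * q) := by
      rw [hθ2]
      field_simp
    rw [e2] at e1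
    refine e1.trans ?_
    calc t ^ 2 / 2 * (ε * q) ≤ T ^ 2 / 2 * (ε * q) := mul_le_mul_of_nonneg_right (by linarith) (by positivity)
      _ = _ := by ring
  have g3 : x * (2 * B * (|θ| ^ 3 * L ^ 2)) ≤ 2 * B * T ^ 2 * (T / √K) * q := by
    have e1 : x * (2 * B * (|θ| ^ 3 * L ^ 2)) = 2 * B * (x * |θ| ^ 2 * L) * (|θ| * L) := by ring
    have e2 : x * |θ| ^ 2 * L = t ^ 2 * q := by
      rw [sq_abs, hθ2]
      field_simp
    rw [e1, e2]
    calc 2 * B * (t ^ 2 * q) * (|θ| * L) ≤ 2 * B * (T ^ 2 * q) * (T / √K) := by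
          refine mul_le_mul ?_ hu (by positivity) (by positivity)
          exact mul_le_mul_of_nonneg_left (mul_le_mul_of_nonneg_right ht2 hqp.le) (by linarith)
      _ = _ := by ring
  have g4 : x * (8 * B ^ 2 * θ ^ 2) ≤ 8 * B ^ 2 * T ^ 2 / L * q := by
    have e1 : x * (8 * B ^ 2 * θ ^ 2) = 8 * B ^ 2 * t ^ 2 / L * q := by
      rw [hθ2]
      field_simp
    rw [e1]
    gcongr
  have hB' : 0 ≤ 4 * (24 * B + 10) := by linarith
  have g5 := mul_le_mul_of_nonneg_left g1 hB'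
  nlinarith

end Pool.Agent.N944.NL
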