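import Mathlib
import Pool.Agent.N944.NL.C
import Pool.Agent.N944.MV.D
import Pool.Agent.N786.E.Levy
import Pool.Agent.N916.ND.Levy

set_option autoImplicit false
set_option linter.unusedSectionVars false
set_option linter.unusedVariables false

/-! # The normal law over the residue classes in sequential models -/

open MeasureTheory Filter Set
open scoped ENNReal Topology

namespace Pool.Agent.N944.NL

open Pool.Agent.R528.RM Pool.Agent.N893.SM Pool.Agent.N909.TF Pool.Agent.N944.MV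

variable {Ω : Type} {m0 : MeasurableSpace Ω} {μ : Measure Ω} [IsProbabilityMeasure μ]
  {ℱ : Filtration ℕ m0} {A : ℕ → Set Ω}

lemma ec_sub (y z : ℝ) : ‖ec y - ec z‖ ≤ |y - z| := by
  have h : ec y - ec z = ec z * (ec (y - z) - 1) := by
    rw [mul_sub, ← ec_add, mul_one, add_sub_cancel]
  rw [h, norm_mul, ec_norm, one_mul]
  exact ec_sub_one _

lemma exp_lip {a b : ℝ} (ha : 0 ≤ a) (hb : 0 ≤ b) : |Real.exp (-a) - Real.exp (-b)| ≤ |a - b| := by
  have key : ∀ a b : ℝ, 0 ≤ a → Real.exp (-a) - Real.exp (-b) ≤ |a - b| := by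
    intro a b ha
    have h1 : Real.exp (-b) = Real.exp (-a) * Real.exp (a - b) := by
      rw [← Real.exp_add]
      congr 1
      ring
    have h2 := Real.add_one_le_exp (a - b)
    have h3 := Real.exp_pos (-a)
    have h4 : Real.exp (-a) ≤ 1 := Real.exp_le_one_iff.2 (by linarith)
    have h5 : Real.exp (-a) * (a - b + 1) ≤ Real.exp (-b) := by
      rw [h1]
      exact mul_le_mul_of_nonneg_left h2 h3.le
    have h6 : Real.exp (-a) * (b - a) ≤ Real.exp (-a) * |a - b| :=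
      mul_le_mul_of_nonneg_left (by rw [abs_sub_comm]; exact le_abs_self _) h3.le
    have h7 : Real.exp (-a) * |a - b| ≤ |a - b| := mul_le_of_le_one_left (abs_nonneg _) h4
    nlinarith
  rw [abs_le]
  constructor
  · have := key b a hb
    rw [abs_sub_comm] at this
    linarith
  · exact key a b ha

/-- the grid is fine -/
lemma grid {x : ℕ} (hx : 1 ≤ x) {ξ Ξ : ℝ} (h : |ξ| ≤ Ξ) (hΞ : Ξ ≤ (x : ℝ) ^ 2) :
    ∃ i : ℕ, i ≤ 2 * x ^ 4 ∧ |ξ - gt x i| ≤ 1 / (x : ℝ) ^ 2 := by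
  have hx0 : (0 : ℝ) < x := by exact_mod_cast hx
  have h' := abs_le.1 h
  set y := (ξ + (x : ℝ) ^ 2) * (x : ℝ) ^ 2 with hy
  have hy0 : 0 ≤ y := mul_nonneg (by linarith) (by positivity)
  refine ⟨⌊y⌋₊, ?_, ?_⟩
  · have h1 : (⌊y⌋₊ : ℝ) ≤ y := Nat.floor_le hy0
    have h2 : y ≤ ((2 * x ^ 4 : ℕ) : ℝ) := by
      push_cast
      rw [hy]
      have : (ξ + (x : ℝ) ^ 2) * (x : ℝ) ^ 2 ≤ ((x : ℝ) ^ 2 + (x : ℝ) ^ 2) * (x : ℝ) ^ 2 :=
        mul_le_mul_of_nonneg_right (by linarith) (by positivity)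
      refine this.trans (le_of_eq ?_)
      ring
    exact_mod_cast h1.trans h2
  · unfold gt
    have h1 := Nat.floor_le hy0
    have h2 := Nat.lt_floor_add_one y
    have h3 : ξ - ((⌊y⌋₊ : ℝ) / (x : ℝ) ^ 2 - (x : ℝ) ^ 2) = (y - ⌊y⌋₊) / (x : ℝ) ^ 2 := by
      rw [eq_div_iff (by positivity), sub_mul, sub_mul, div_mul_cancel₀ _ (by positivity)]
      rw [hy]
      ring
    rw [h3, abs_div, abs_of_pos (show (0 : ℝ) < (x : ℝ) ^ 2 by positivity)]
    refine div_le_div_of_nonneg_right ?_ (by positivity)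
    rw [abs_le]
    constructor <;> linarith

lemma dv_triv {ω : Ω} (h01 : ∀ n, 0 ≤ dens μ ℱ A n ω ∧ dens μ ℱ A n ω ≤ 1) (x q a : ℕ) :
    |dv μ ℱ A x q a ω| ≤ x * Real.log x := by
  unfold dv SA
  refine (Finset.abs_sum_le_sum_abs _ _).trans ?_
  have h1 : ∀ n ∈ (Finset.Icc 1 x).filter (fun n => n ≡ a [MOD q]), |Real.log n * dif μ ℱ A ω n| ≤ Real.log x := by
    intro n hn
    have h2 := Finset.mem_Icc.1 (Finset.mem_filter.1 hn).1
    rw [abs_mul, abs_of_nonneg (Real.log_natCast_nonneg n)]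
    have h3 : |dif μ ℱ A ω n| ≤ 1 := by
      unfold dif
      have h4 := In_nonneg (A := A) n ω
      have h5 := In_le (A := A) n ω
      have h6 := h01 (n - 1)
      rw [abs_le]
      constructor <;> linarith [h6.1, h6.2]
    have h4 : Real.log n ≤ Real.log x := by
      refine Real.log_le_log ?_ (by exact_mod_cast h2.2)
      have : 0 < n := h2.1
      exact_mod_cast this
    calc Real.log n * |dif μ ℱ A ω n| ≤ Real.log x * 1 := mul_le_mul h4 h3 (abs_nonneg _) (Real.log_natCast_nonneg x)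
      _ = _ := mul_one _
  refine (Finset.sum_le_sum h1).trans ?_
  rw [Finset.sum_const, nsmul_eq_mul]
  refine mul_le_mul_of_nonneg_right ?_ (Real.log_natCast_nonneg x)
  have := Finset.card_filter_le (Finset.Icc 1 x) (fun n => n ≡ a [MOD q])
  rw [Nat.card_Icc, Nat.add_sub_cancel] at this
  exact_mod_cast this

/-- **the characteristic function, uniformly** -/
theorem char_close {ω : Ω} (h01 : ∀ n, 0 ≤ dens μ ℱ A n ω ∧ dens μ ℱ A n ω ≤ 1)
    {B : ℝ} (hB : 1 ≤ B) (hd : ∀ n : ℕ, 2 ≤ n → dens μ ℱ A n ω * Real.log n ≤ B)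
    (hl : Tendsto (fun n : ℕ => dens μ ℱ A n ω * Real.log n) atTop (𝓝 1))
    (hX : ∀ᶠ x : ℕ in atTop, ∀ q i : ℕ, 1 ≤ q → q ≤ x → i ≤ 2 * x ^ 4 → ∀ (s : ℝ) (c : Bool), s = 1 ∨ s = -1 →
      Ex μ ℱ A (tt x) (wr μ ℱ A s c (|th x q i| * Real.log x) (th x q i) (bb' x q i) x q) x ω < 10 * Real.log x ∧
      Ex μ ℱ A (-tt x) (wr μ ℱ A s c (|th x q i| * Real.log x) (th x q i) (bb' x q i) x q) x ω < 10 * Real.log x)
    {Ξ δ : ℝ} (hΞ : 1 ≤ Ξ) (hδ : 0 < δ) :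
    ∃ K : ℝ, 1 ≤ K ∧ ∀ᶠ x : ℕ in atTop, ∀ q : ℕ, K * Real.log x ≤ q → K * q * Real.log x ≤ x →
      ∀ v : ℕ → ℝ, (∀ a ∈ Finset.Icc 1 q, |v a| ≤ δ / (4 * Ξ) * sg x q) → ∀ ξ : ℝ, |ξ| ≤ Ξ →
      ‖(∑ a ∈ Finset.Icc 1 q, ec (ξ * ((dv μ ℱ A x q a ω + v a) / sg x q))) / q -
        ((Real.exp (-(ξ ^ 2 / 2)) : ℝ) : ℂ)‖ ≤ δ := by
  set T : ℝ := Ξ + 1 with hT
  have hT1 : 1 ≤ T := by linarith
  set P : ℝ := 4 * (24 * B + 10) + 2 * B * T ^ 2 with hP
  have hP0 : 0 < P := by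
    have : 0 < 24 * B + 10 := by linarith
    positivity
  set K : ℝ := T ^ 2 + (16 * P * T / δ) ^ 2 + 16 * T ^ 2 * (2 + T ^ 2) / δ with hK
  have k1 : T ^ 2 ≤ K := by
    have : 0 ≤ (16 * P * T / δ) ^ 2 + 16 * T ^ 2 * (2 + T ^ 2) / δ := by positivity
    linarith
  have k2 : (16 * P * T / δ) ^ 2 ≤ K := by
    have : 0 ≤ T ^ 2 + 16 * T ^ 2 * (2 + T ^ 2) / δ := by positivity
    linarith
  have k3 : 16 * T ^ 2 * (2 + T ^ 2) / δ ≤ K := by
    have : 0 ≤ T ^ 2 + (16 * P * T / δ) ^ 2 := by positivity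
    linarith
  have hT2 : 1 ≤ T ^ 2 := by nlinarith
  have hK1 : 1 ≤ K := hT2.trans k1
  have hK0 : 0 < K := by linarith
  have hsK : 0 < √K := Real.sqrt_pos.2 hK0
  refine ⟨K, hK1, ?_⟩
  set M : ℝ := 128 * B ^ 2 * T ^ 2 / δ + 8 * T / δ + T with hM
  have hε : 0 < δ / (8 * T ^ 2) := by positivity
  filter_upwards [hX, Dl_small h01 hl hε, eventually_ge_atTop 16, tendsto_log.eventually_ge_atTop (1 : ℝ),
    tendsto_log.eventually_ge_atTop M] with x hx hDl hx16 hlog hlM q hq1 hq2 v hv ξ hξ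
  have hxr : (16 : ℝ) ≤ x := by exact_mod_cast hx16
  have hxp : (0 : ℝ) < x := by linarith
  set L := Real.log (x : ℝ) with hL
  have hL0 : 0 < L := by linarith
  have hqr : (1 : ℝ) ≤ q := by nlinarith
  have hq : 1 ≤ q := by exact_mod_cast hqr
  have hqp : (0 : ℝ) < q := by linarith
  have hqx : (q : ℝ) ≤ x := by
    have : (q : ℝ) * 1 ≤ q * (K * L) := mul_le_mul_of_nonneg_left (by nlinarith) hqp.le
    nlinarith
  have hqx' : q ≤ x := by exact_mod_cast hqx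
  have m1 : 128 * B ^ 2 * T ^ 2 / δ ≤ L := by
    have : 0 ≤ 8 * T / δ + T := by positivity
    linarith
  have m2 : 8 * T / δ ≤ L := by
    have : 0 ≤ 128 * B ^ 2 * T ^ 2 / δ + T := by positivity
    linarith
  have m3 : T ≤ L := by
    have : 0 ≤ 128 * B ^ 2 * T ^ 2 / δ + 8 * T / δ := by positivity
    linarith
  have hLs : L ≤ √(x : ℝ) := log_le_sqrt x (by omega)
  have hss : √(x : ℝ) * √(x : ℝ) = x := Real.mul_self_sqrt hxp.le
  have hLx : L * L ≤ x := by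
    rw [← hss]
    exact mul_le_mul hLs hLs hL0.le (Real.sqrt_nonneg _)
  have hLx' : L ≤ x := by nlinarith
  have hσ1 : 1 ≤ sg x q := by
    unfold sg
    apply Real.le_sqrt_of_sq_le
    rw [one_pow, le_div_iff₀ hqp, ← hL]
    nlinarith
  have hσ0 : 0 < sg x q := by linarith
  obtain ⟨i, hi1, hi2⟩ := grid (x := x) (by omega) hξ (by nlinarith)
  set t := gt x i with ht
  have hx2 : 1 / (x : ℝ) ^ 2 ≤ 1 / x := by
    apply one_div_le_one_div_of_le hxp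
    nlinarith
  have hx3 : 1 / (x : ℝ) ≤ 1 := by
    rw [div_le_one hxp]
    linarith
  have htT : |t| ≤ T := by
    have h1 : |t| ≤ |ξ| + |ξ - t| := by
      have := abs_sub_abs_le_abs_sub t ξ
      rw [abs_sub_comm t ξ] at this
      linarith
    linarith
  have hest := est (μ := μ) (ℱ := ℱ) (A := A) h01 hB hd hx16 hlog hq hT1 k1 htT hq1 hq2 hDl (hx q i hq hqx' hi1)
  rw [← ht, ← hL] at hest
  -- the error of the estimate
  have f1 : P * (T / √K) ≤ δ / 16 := by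
    have h1 : 16 * P * T / δ ≤ √K := Real.le_sqrt_of_sq_le k2
    rw [div_le_iff₀ hδ] at h1
    rw [← mul_div_assoc, div_le_iff₀ hsK]
    linarith
  have f2 : T ^ 2 / 2 * (δ / (8 * T ^ 2)) = δ / 16 := by
    field_simp
    ring
  have f3 : 8 * B ^ 2 * T ^ 2 / L ≤ δ / 16 := by
    rw [div_le_iff₀ hδ] at m1
    rw [div_le_iff₀ hL0]
    linarith
  have f4 : T ^ 2 / K * (2 + T ^ 2) ≤ δ / 16 := by
    rw [div_le_iff₀ hδ] at k3
    rw [div_mul_eq_mul_div, div_le_iff₀ hK0]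
    linarith
  have hest2 : ‖(∑ a ∈ Finset.Icc 1 q, ec (th x q i * dv μ ℱ A x q a ω)) / q - ((Real.exp (-(t ^ 2 / 2)) : ℝ) : ℂ)‖ ≤ δ / 4 := by
    refine hest.trans ?_
    rw [f2]
    have : 4 * (24 * B + 10) * (T / √K) + 2 * B * T ^ 2 * (T / √K) = P * (T / √K) := by rw [hP]; ring
    linarith
  -- the first part
  have hp1 : ‖(∑ a ∈ Finset.Icc 1 q, ec (ξ * ((dv μ ℱ A x q a ω + v a) / sg x q))) / q -
      (∑ a ∈ Finset.Icc 1 q, ec (th x q i * dv μ ℱ A x q a ω)) / q‖ ≤ L / x + δ / 4 := by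
    rw [← sub_div, norm_div, Complex.norm_natCast, div_le_iff₀ hqp, ← Finset.sum_sub_distrib]
    have h1 : ∀ a ∈ Finset.Icc 1 q, ‖ec (ξ * ((dv μ ℱ A x q a ω + v a) / sg x q)) - ec (th x q i * dv μ ℱ A x q a ω)‖ ≤ L / x + δ / 4 := by
      intro a ha
      refine (ec_sub _ _).trans ?_
      have e1 : ξ * ((dv μ ℱ A x q a ω + v a) / sg x q) - th x q i * dv μ ℱ A x q a ω =
          (ξ - t) * (dv μ ℱ A x q a ω / sg x q) + ξ * (v a / sg x q) := by
        unfold th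
        rw [← ht]
        ring
      rw [e1]
      refine (abs_add_le _ _).trans (add_le_add ?_ ?_)
      · rw [abs_mul, abs_div, abs_of_pos hσ0]
        have h2 : |dv μ ℱ A x q a ω| / sg x q ≤ x * L := (div_le_self (abs_nonneg _) hσ1).trans (dv_triv h01 x q a)
        calc |ξ - t| * (|dv μ ℱ A x q a ω| / sg x q) ≤ (1 / (x : ℝ) ^ 2) * (x * L) :=
              mul_le_mul hi2 h2 (by positivity) (by positivity)
          _ = L / x := by field_simp
      · rw [abs_mul, abs_div, abs_of_pos hσ0]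
        have h2 : |v a| / sg x q ≤ δ / (4 * Ξ) := by
          rw [div_le_iff₀ hσ0]
          exact hv a ha
        calc |ξ| * (|v a| / sg x q) ≤ Ξ * (δ / (4 * Ξ)) := mul_le_mul hξ h2 (by positivity) (by linarith)
          _ = δ / 4 := by field_simp
    refine ((norm_sum_le _ _).trans (Finset.sum_le_sum h1)).trans (le_of_eq ?_)
    rw [Finset.sum_const, Nat.card_Icc, Nat.add_sub_cancel, nsmul_eq_mul]
    ring
  have hp3 : ‖((Real.exp (-(t ^ 2 / 2)) : ℝ) : ℂ) - ((Real.exp (-(ξ ^ 2 / 2)) : ℝ) : ℂ)‖ ≤ T / x := by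
    rw [← Complex.ofReal_sub, Complex.norm_real, Real.norm_eq_abs]
    refine (exp_lip (by positivity) (by positivity)).trans ?_
    have e1 : t ^ 2 / 2 - ξ ^ 2 / 2 = (ξ - t) * (-(t + ξ) / 2) := by ring
    rw [e1, abs_mul]
    have e2 : |-(t + ξ) / 2| ≤ T := by
      rw [abs_div, abs_neg, abs_of_pos (by norm_num : (0 : ℝ) < 2)]
      have := abs_add_le t ξ
      linarith
    calc |ξ - t| * |-(t + ξ) / 2| ≤ (1 / x) * T := mul_le_mul (hi2.trans hx2) e2 (abs_nonneg _) (by positivity)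
      _ = T / x := by ring
  have f5 : L / x ≤ δ / 8 := by
    rw [div_le_iff₀ hxp]
    rw [div_le_iff₀ hδ] at m2
    have : 8 ≤ L * δ := by linarith
    nlinarith
  have f6 : T / x ≤ δ / 8 := by
    rw [div_le_iff₀ hxp]
    rw [div_le_iff₀ hδ] at m2
    nlinarith
  have e : (∑ a ∈ Finset.Icc 1 q, ec (ξ * ((dv μ ℱ A x q a ω + v a) / sg x q))) / q - ((Real.exp (-(ξ ^ 2 / 2)) : ℝ) : ℂ) =
      ((∑ a ∈ Finset.Icc 1 q, ec (ξ * ((dv μ ℱ A x q a ω + v a) / sg x q))) / q -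
      (∑ a ∈ Finset.Icc 1 q, ec (th x q i * dv μ ℱ A x q a ω)) / q) +
      ((∑ a ∈ Finset.Icc 1 q, ec (th x q i * dv μ ℱ A x q a ω)) / q - ((Real.exp (-(t ^ 2 / 2)) : ℝ) : ℂ)) +
      (((Real.exp (-(t ^ 2 / 2)) : ℝ) : ℂ) - ((Real.exp (-(ξ ^ 2 / 2)) : ℝ) : ℂ)) := by ring
  rw [e]
  refine (norm_add₃_le).trans ?_
  linarith

/-- **the normal law**, with a small shift -/
theorem normal_law {ω : Ω} (h01 : ∀ n, 0 ≤ dens μ ℱ A n ω ∧ dens μ ℱ A n ω ≤ 1)
    {B : ℝ} (hB : 1 ≤ B) (hd : ∀ n : ℕ, 2 ≤ n → dens μ ℱ A n ω * Real.log n ≤ B)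
    (hl : Tendsto (fun n : ℕ => dens μ ℱ A n ω * Real.log n) atTop (𝓝 1))
    (hX : ∀ᶠ x : ℕ in atTop, ∀ q i : ℕ, 1 ≤ q → q ≤ x → i ≤ 2 * x ^ 4 → ∀ (s : ℝ) (c : Bool), s = 1 ∨ s = -1 →
      Ex μ ℱ A (tt x) (wr μ ℱ A s c (|th x q i| * Real.log x) (th x q i) (bb' x q i) x q) x ω < 10 * Real.log x ∧
      Ex μ ℱ A (-tt x) (wr μ ℱ A s c (|th x q i| * Real.log x) (th x q i) (bb' x q i) x q) x ω < 10 * Real.log x)
    (t : ℝ) {ε : ℝ} (hε : 0 < ε) :
    ∃ K η : ℝ, 1 ≤ K ∧ 0 < η ∧ ∀ᶠ x : ℕ in atTop, ∀ q : ℕ, K * Real.log x ≤ q → K * q * Real.log x ≤ x →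
      ∀ v : ℕ → ℝ, (∀ a ∈ Finset.Icc 1 q, |v a| ≤ η * sg x q) →
      |(((Finset.Icc 1 q).filter (fun a => dv μ ℱ A x q a ω + v a ≤ t * sg x q)).card : ℝ) / q -
        Pool.Agent.N786.E.Phi t| ≤ ε := by
  obtain ⟨Ξ, δ, hΞ, hδ, hcdf⟩ := Pool.Agent.N786.E.cdf_close t ε hε
  obtain ⟨K, hK, h⟩ := char_close (μ := μ) (ℱ := ℱ) (A := A) h01 hB hd hl hX hΞ hδ
  refine ⟨K, δ / (4 * Ξ), hK, by positivity, ?_⟩
  filter_upwards [h, tendsto_log.eventually_ge_atTop (1 : ℝ), eventually_ge_atTop 16] with x hx hlog hx16 q hq1 hq2 v hv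
  have hxr : (16 : ℝ) ≤ x := by exact_mod_cast hx16
  have hqr : (1 : ℝ) ≤ q := by nlinarith
  have hq : 1 ≤ q := by exact_mod_cast hqr
  have hqp : (0 : ℝ) < q := by linarith
  have hσ0 : 0 < sg x q := by
    unfold sg
    apply Real.sqrt_pos.2
    have : 0 < Real.log (x : ℝ) := by linarith
    positivity
  set y : ℕ → ℝ := fun a => (dv μ ℱ A x q a ω + v a) / sg x q with hy
  have hne : (Finset.Icc 1 q).Nonempty := ⟨1, Finset.mem_Icc.2 ⟨le_rfl, hq⟩⟩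
  have hcard : (Finset.Icc 1 q).card = q := by rw [Nat.card_Icc, Nat.add_sub_cancel]
  have h1 := hcdf (Pool.Agent.N916.ND.law (Finset.Icc 1 q) y) (Pool.Agent.N916.ND.law_prob hne y) (by
    intro ξ hξ
    rw [Pool.Agent.N916.ND.law_charFun, hcard]
    have h2 := hx q hq1 hq2 v hv ξ hξ
    have e1 : ∀ a ∈ Finset.Icc 1 q, Complex.exp ((ξ : ℂ) * (y a : ℂ) * Complex.I) = ec (ξ * ((dv μ ℱ A x q a ω + v a) / sg x q)) := by
      intro a _
      show Complex.exp ((ξ : ℂ) * (y a : ℂ) * Complex.I) = Complex.exp (((ξ * y a : ℝ) : ℂ) * Complex.I)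
      rw [Complex.ofReal_mul]
    rw [Finset.sum_congr rfl e1]
    have e2 : Complex.exp (-((ξ : ℂ) ^ 2 / 2)) = ((Real.exp (-(ξ ^ 2 / 2)) : ℝ) : ℂ) := by
      push_cast
      rfl
    rw [e2]
    exact h2)
  have h3 : (Pool.Agent.N916.ND.law (Finset.Icc 1 q) y).real (Iic t) =
      (((Finset.Icc 1 q).filter (fun a => dv μ ℱ A x q a ω + v a ≤ t * sg x q)).card : ℝ) / q := by
    unfold Measure.real
    rw [Pool.Agent.N916.ND.law_apply _ _ _ measurableSet_Iic, hcard]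
    have e1 : ∑ S ∈ Finset.Icc 1 q, (Iic t).indicator (1 : ℝ → ℝ≥0∞) (y S) =
        (((Finset.Icc 1 q).filter (fun a => dv μ ℱ A x q a ω + v a ≤ t * sg x q)).card : ℝ≥0∞) := by
      rw [Finset.card_filter, Nat.cast_sum]
      refine Finset.sum_congr rfl fun a _ => ?_
      by_cases hc : dv μ ℱ A x q a ω + v a ≤ t * sg x q
      · have h4 : y a ∈ Iic t := by
          rw [mem_Iic, hy]
          exact (div_le_iff₀ hσ0).2 hc
        rw [indicator_of_mem h4, if_pos hc]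
        simp
      · have h4 : y a ∉ Iic t := by
          rw [mem_Iic, hy]
          intro h5
          exact hc ((div_le_iff₀ hσ0).1 h5)
        rw [indicator_of_notMem h4, if_neg hc]
        simp
    rw [e1, ENNReal.toReal_mul, ENNReal.toReal_inv, ENNReal.toReal_natCast, ENNReal.toReal_natCast]
    ring
  rwa [h3] at h1

/-- **the normal law with the main term `ψ(x) / q`** -/
theorem normal_psi {ω : Ω} (h01 : ∀ n, 0 ≤ dens μ ℱ A n ω ∧ dens μ ℱ A n ω ≤ 1)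
    {B : ℝ} (hB : 1 ≤ B) (hd : ∀ n : ℕ, 2 ≤ n → dens μ ℱ A n ω * Real.log n ≤ B)
    (hl : Tendsto (fun n : ℕ => dens μ ℱ A n ω * Real.log n) atTop (𝓝 1))
    (hX : ∀ᶠ x : ℕ in atTop, ∀ q i : ℕ, 1 ≤ q → q ≤ x → i ≤ 2 * x ^ 4 → ∀ (s : ℝ) (c : Bool), s = 1 ∨ s = -1 →
      Ex μ ℱ A (tt x) (wr μ ℱ A s c (|th x q i| * Real.log x) (th x q i) (bb' x q i) x q) x ω < 10 * Real.log x ∧
      Ex μ ℱ A (-tt x) (wr μ ℱ A s c (|th x q i| * Real.log x) (th x q i) (bb' x q i) x q) x ω < 10 * Real.log x)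
    {lam : ℕ → ℝ} (hlam : ∀ n : ℕ, 2 ≤ n → 0 ≤ lam n ∧ lam (n + 1) ≤ lam n ∧ dens μ ℱ A n ω = lam n)
    {C : ℝ} (hC : 1 ≤ C)
    (hM : ∀ x q a : ℕ, 2 ≤ x → 1 ≤ q → q ≤ x → 1 ≤ a → a ≤ q →
      |SA (dif μ ℱ A ω) x q a| ≤ C * (√((x : ℝ) / q) + Real.log x))
    (t : ℝ) {ε : ℝ} (hε : 0 < ε) :
    ∃ K : ℝ, 1 ≤ K ∧ ∀ᶠ x : ℕ in atTop, ∀ q : ℕ, K * Real.log x ≤ q → K * q * Real.log x ≤ x →
      |(((Finset.Icc 1 q).filter (fun a => ps A x q a ω - ps A x 1 1 ω / q ≤ t * sg x q)).card : ℝ) / q -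
        Pool.Agent.N786.E.Phi t| ≤ ε := by
  obtain ⟨K, η, hK, hη, h⟩ := normal_law (μ := μ) (ℱ := ℱ) (A := A) h01 hB hd hl hX t hε
  obtain ⟨C1, hC1, h1⟩ := dens_equi (μ := μ) (ℱ := ℱ) (A := A) ∅ (by simp) h01 (by simp) (lam := lam)
    (fun n hn => ⟨(hlam n hn).1, (hlam n hn).2.1, fun _ => (hlam n hn).2.2⟩)
  set Cd : ℝ := 2 * (C + 2) with hCd
  have hCd0 : 0 < Cd := by rw [hCd]; linarith
  set C3 : ℝ := 2 * Cd + 2 * C1 with hC3
  have hC30 : 0 < C3 := by rw [hC3]; positivity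
  refine ⟨K + (C3 / η) ^ 2, by have := sq_nonneg (C3 / η); linarith, ?_⟩
  filter_upwards [h, tendsto_log.eventually_ge_atTop (1 : ℝ), eventually_ge_atTop 16] with x hx hlog hx16 q hq1 hq2
  have hxr : (16 : ℝ) ≤ x := by exact_mod_cast hx16
  have hxp : (0 : ℝ) < x := by linarith
  set L := Real.log (x : ℝ) with hL
  have hL0 : 0 < L := by linarith
  have hsq := sq_nonneg (C3 / η)
  have hq1' : K * L ≤ q := by nlinarith
  have hq1'' : (C3 / η) ^ 2 * L ≤ q := by nlinarith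
  have hqr : (1 : ℝ) ≤ q := by nlinarith
  have hq : 1 ≤ q := by exact_mod_cast hqr
  have hqp : (0 : ℝ) < q := by linarith
  have hqL : 0 < (q : ℝ) * L := by positivity
  have hq2' : K * q * L ≤ x := by nlinarith
  have hq2'' : (C3 / η) ^ 2 * (q * L) ≤ x := by nlinarith
  have hσ2 : sg x q ^ 2 = x * L / q := by
    unfold sg
    rw [Real.sq_sqrt (by positivity)]
  have hσ0 : 0 < sg x q := by
    unfold sg
    apply Real.sqrt_pos.2
    positivity
  set s := √(x : ℝ) with hs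
  have hs0 : 0 < s := Real.sqrt_pos.2 hxp
  have hss : s * s = x := Real.mul_self_sqrt hxp.le
  have hLs : L ≤ s := log_le_sqrt x (by omega)
  have g1 : s * L / q ≤ η / C3 * sg x q := by
    refine (pow_le_pow_iff_left₀ (by positivity) (by positivity) two_ne_zero).1 ?_
    rw [mul_pow, hσ2, div_pow, mul_pow, sq s, hss, div_pow]
    have e1 : L ≤ (η ^ 2 / C3 ^ 2) * q := by
      have : (C3 / η) ^ 2 * L = (C3 ^ 2 / η ^ 2) * L := by rw [div_pow]
      rw [this, div_mul_eq_mul_div, div_le_iff₀ (by positivity)] at hq1''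
      rw [div_mul_eq_mul_div, le_div_iff₀ (by positivity)]
      linarith
    calc x * L ^ 2 / q ^ 2 = (x * L / q ^ 2) * L := by ring
      _ ≤ (x * L / q ^ 2) * ((η ^ 2 / C3 ^ 2) * q) := mul_le_mul_of_nonneg_left e1 (by positivity)
      _ = η ^ 2 / C3 ^ 2 * (x * L / q) := by field_simp
  have g2 : L ≤ η / C3 * sg x q := by
    refine (pow_le_pow_iff_left₀ (by positivity) (by positivity) two_ne_zero).1 ?_
    rw [mul_pow, hσ2, div_pow]
    have e1 : q * L ≤ (η ^ 2 / C3 ^ 2) * x := by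
      have : (C3 / η) ^ 2 * (q * L) = (C3 ^ 2 / η ^ 2) * (q * L) := by rw [div_pow]
      rw [this, div_mul_eq_mul_div, div_le_iff₀ (by positivity)] at hq2''
      rw [div_mul_eq_mul_div, le_div_iff₀ (by positivity)]
      linarith
    calc L ^ 2 = (q * L) * (L / q) := by field_simp
      _ ≤ ((η ^ 2 / C3 ^ 2) * x) * (L / q) := mul_le_mul_of_nonneg_right e1 (by positivity)
      _ = η ^ 2 / C3 ^ 2 * (x * L / q) := by ring
  set v : ℕ → ℝ := fun a => -(dv μ ℱ A x 1 1 ω / q) +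
    ∑ k ∈ Finset.Icc 1 x, Real.log k * (dens μ ℱ A (k - 1) ω * ((if k ≡ a [MOD q] then 1 else 0) - 1 / (q : ℝ))) with hv
  have hphi : phiQ ∅ q = q := by simp [phiQ]
  have hvb : ∀ a ∈ Finset.Icc 1 q, |v a| ≤ η * sg x q := by
    intro a ha
    have ha1 := Finset.mem_Icc.1 ha
    have e1 : |∑ k ∈ Finset.Icc 1 x, Real.log k * (dens μ ℱ A (k - 1) ω * ((if k ≡ a [MOD q] then 1 else 0) - 1 / (q : ℝ)))| ≤
        2 * C1 * L := abel_log hC1 (by omega) fun n _ _ => by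
          have := h1 q a n hq ha1.1 ha1.2 (by unfold Ad; simp)
          rwa [hphi] at this
    have e2 := dv_bound (μ := μ) (ℱ := ℱ) (A := A) h01 hC hM x 1 1 (by omega) le_rfl (by omega)
    rw [← hCd, Nat.cast_one, div_one, ← hL, ← hs] at e2
    have e3 : |-(dv μ ℱ A x 1 1 ω / q)| ≤ 2 * Cd * (s * L / q) := by
      rw [abs_neg, abs_div, abs_of_pos hqp, div_le_iff₀ hqp]
      have e4 : 2 * Cd * (s * L / q) * q = Cd * (s * L + s * L) := by field_simp; ring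
      rw [e4]
      refine e2.trans (mul_le_mul_of_nonneg_left ?_ hCd0.le)
      nlinarith
    calc |v a| ≤ _ := abs_add_le _ _
      _ ≤ 2 * Cd * (s * L / q) + 2 * C1 * L := add_le_add e3 e1
      _ ≤ 2 * Cd * (η / C3 * sg x q) + 2 * C1 * (η / C3 * sg x q) :=
          add_le_add (mul_le_mul_of_nonneg_left g1 (by linarith)) (mul_le_mul_of_nonneg_left g2 (by linarith))
      _ = (2 * Cd + 2 * C1) * (η / C3 * sg x q) := by ring
      _ = C3 * (η / C3 * sg x q) := by rw [hC3]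
      _ = η * sg x q := by field_simp
  have hpsi : ∀ a, ps A x q a ω - ps A x 1 1 ω / q = dv μ ℱ A x q a ω + v a := by
    intro a
    simp only [hv]
    unfold ps dv
    rw [SA_ite', SA_ite', SA_ite', SA_ite', Finset.sum_div, Finset.sum_div, ← Finset.sum_neg_distrib,
      ← Finset.sum_sub_distrib, ← Finset.sum_add_distrib, ← Finset.sum_add_distrib]
    refine Finset.sum_congr rfl fun k _ => ?_
    rw [if_pos (Nat.modEq_one (a := k) (b := 1)), if_pos (Nat.modEq_one (a := k) (b := 1))]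
    unfold dif
    split_ifs <;> ring
  have h5 := hx q hq1' hq2' v hvb
  simp only [hpsi]
  exact h5

end Pool.Agent.N944.NL
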